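import Pool.Agent.N518.HQ.Imp

/-!
# The action of mapping classes on homomorphisms
-/

set_option autoImplicit false

namespace Pool.Agent.N518.HQ

open Pool.Agent.N518.TG Function

section
variable {g : ℕ}

/-- the values of `x_l` and `y_l` commute -/
def Good {Q : Type} [Group Q] (X e : Fin g → Q) : Prop := ∀ l, Commute (X l) (e l)

theorem Good.comp {Q : Type} [Group Q] {X e : Fin g → Q} (h : Good X e) (π : Fin g → Fin g) :
    Good (X ∘ π) (e ∘ π) := fun l => h (π l)

/-- the mapping class `σ` acts on the good homomorphisms by the permutation `π` of the handles -/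
def Acts (σ : MulAut (Surf g)) (π : Equiv.Perm (Fin g)) : Prop :=
  ∀ (Q : Type) [Group Q] (X e : Fin g → Q), Good X e →
    (HH X e).comp σ.toMonoidHom = HH (X ∘ π) (e ∘ π)

theorem comp_mul {Q : Type} [Group Q] (f : Surf g →* Q) (a b : MulAut (Surf g)) :
    f.comp (a * b).toMonoidHom = (f.comp a.toMonoidHom).comp b.toMonoidHom := rfl

theorem comp_inv_cancel {Q : Type} [Group Q] {f f' : Surf g →* Q} {a : MulAut (Surf g)}
    (h : f.comp a.toMonoidHom = f') : f'.comp (a⁻¹).toMonoidHom = f := by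
  rw [← h, ← comp_mul, mul_inv_cancel]
  rfl

theorem update_swap {Q : Type} {i j : Fin g} (h : i ≠ j) (X : Fin g → Q) :
    update (update X i (X j)) j (X i) = X ∘ Equiv.swap i j := by
  funext l
  by_cases hj : l = j
  · subst hj
    simp
  · rw [update_of_ne hj]
    by_cases hi : l = i
    · subst hi
      simp
    · rw [update_of_ne hi, comp_apply, Equiv.swap_apply_of_ne_of_ne hi hj]

theorem exists_acts : ∀ {g : ℕ} (π : Equiv.Perm (Fin g)), ∃ σ ∈ TG.Mod g, Acts σ π
  | 0, π => by
    refine ⟨1, one_mem _, fun Q _ X e _ => ?_⟩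
    exact hom_ext (fun i => i.elim0) fun i => i.elim0
  | n + 1, π => by
    have h : π ∈ Submonoid.closure (Set.range fun i : Fin n => Equiv.swap i.castSucc i.succ) :=
      Equiv.Perm.mclosure_swap_castSucc_succ n ▸ Submonoid.mem_top π
    induction h using Submonoid.closure_induction with
    | mem x hx =>
      obtain ⟨i, rfl⟩ := hx
      refine ⟨im (adj_ne i) sw, im_mem i sw_mem, fun Q _ X e h => ?_⟩
      rw [comp_im (adj_ne i) sw (comp_sw (h _) (h _)), update_swap (adj_ne i), update_swap (adj_ne i)]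
    | one => exact ⟨1, one_mem _, fun Q _ X e _ => rfl⟩
    | mul x y _ _ hx hy =>
      obtain ⟨σ, h1, h2⟩ := hx
      obtain ⟨σ', h1', h2'⟩ := hy
      refine ⟨σ * σ', mul_mem h1 h1', fun Q _ X e h => ?_⟩
      rw [comp_mul, h2 Q X e h, h2' Q _ _ (h.comp x)]
      rfl

/-- conjugation by a permutation of the handles -/
theorem acts_conj {σ P : MulAut (Surf g)} {π : Equiv.Perm (Fin g)} (hσ : Acts σ π) {Q : Type}
    [Group Q] {X e Y f : Fin g → Q} (h : Good X e) (h' : Good Y f)
    (hP : (HH (X ∘ π) (e ∘ π)).comp P.toMonoidHom = HH (Y ∘ π) (f ∘ π)) :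
    (HH X e).comp (σ * P * σ⁻¹).toMonoidHom = HH Y f := by
  rw [comp_mul, comp_mul, hσ Q X e h, hP]
  exact comp_inv_cancel (hσ Q Y f h')

theorem exists_perm2 {α : Type} [DecidableEq α] {a b i j : α} (hab : a ≠ b) (hij : i ≠ j) :
    ∃ π : Equiv.Perm α, π a = i ∧ π b = j := by
  refine ⟨Equiv.swap (Equiv.swap a i b) j * Equiv.swap a i, ?_, ?_⟩
  · rw [Equiv.Perm.mul_apply, Equiv.swap_apply_left, Equiv.swap_apply_of_ne_of_ne _ hij]
    intro h
    have h1 : Equiv.swap a i a = Equiv.swap a i b := by rw [Equiv.swap_apply_left]; exact h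
    exact hab ((Equiv.swap a i).injective h1)
  · rw [Equiv.Perm.mul_apply, Equiv.swap_apply_left]

theorem update_comp {Q : Type} (π : Equiv.Perm (Fin g)) (X : Fin g → Q) (a : Fin g) (v : Q) :
    update (X ∘ π) a v = update X (π a) v ∘ π := by
  funext l
  by_cases h : l = a
  · subst h
    simp
  · rw [update_of_ne h, comp_apply, comp_apply, update_of_ne fun h1 => h (π.injective h1)]

end

/-- **Pushing the handle `j` along `y_i`.** -/
theorem exists_push {g : ℕ} {i j : Fin g} (hij : i ≠ j) : ∃ p ∈ TG.Mod g,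
    (∀ (Q : Type) [Group Q] (X e : Fin g → Q), Good X e → e j = 1 →
      (HH X e).comp p.toMonoidHom = HH (update X j (e i * X j)) e) ∧
    ∀ (Q : Type) [CommGroup Q] (X e : Fin g → Q),
      (HH X e).comp p.toMonoidHom = HH (update (update X i (e j * X i)) j (e i * X j)) e := by
  obtain ⟨n, rfl⟩ : ∃ n, g = n + 2 := by
    rcases g with _ | _ | n
    · exact i.elim0
    · exact absurd (Fin.ext (by have := i.2; have := j.2; omega)) hij
    · exact ⟨n, rfl⟩
  have h01 : (0 : Fin (n + 1)).castSucc ≠ (0 : Fin (n + 1)).succ := adj_ne 0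
  obtain ⟨π, hπ0, hπ1⟩ := exists_perm2 h01 hij
  obtain ⟨σ, hσ, hσa⟩ := exists_acts π
  refine ⟨σ * im h01 pp * σ⁻¹, mul_mem (mul_mem hσ (im_mem 0 pp_mem)) (inv_mem hσ), ?_, ?_⟩
  · intro Q _ X e h he
    have h' : Good (update X j (e i * X j)) e := by
      intro l
      by_cases hl : l = j
      · subst hl
        rw [he]
        exact Commute.one_right _
      · rw [update_of_ne hl]
        exact h l
    refine acts_conj hσa h h' ?_
    have h1 : (HH ![(X ∘ π) (0 : Fin (n + 1)).castSucc, (X ∘ π) (0 : Fin (n + 1)).succ]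
        ![(e ∘ π) (0 : Fin (n + 1)).castSucc, (e ∘ π) (0 : Fin (n + 1)).succ]).comp pp.toMonoidHom =
        HH ![X i, e i * X j] ![e i, 1] := by
      rw [comp_apply, comp_apply, comp_apply, comp_apply, hπ0, hπ1, he]
      exact comp_pp _ _ _
    rw [comp_im h01 pp h1, update_comp, update_comp, update_comp, update_comp, hπ0, hπ1,
      update_eq_self, update_eq_self]
    congr 2
    rw [← he, update_eq_self]
  · intro Q _ X e
    refine acts_conj hσa (fun l => Commute.all _ _) (fun l => Commute.all _ _) ?_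
    have h1 : (HH ![(X ∘ π) (0 : Fin (n + 1)).castSucc, (X ∘ π) (0 : Fin (n + 1)).succ]
        ![(e ∘ π) (0 : Fin (n + 1)).castSucc, (e ∘ π) (0 : Fin (n + 1)).succ]).comp pp.toMonoidHom =
        HH ![e j * X i, e i * X j] ![e i, e j] := by
      rw [comp_apply, comp_apply, comp_apply, comp_apply, hπ0, hπ1]
      exact comp_pp_comm _ _ _ _
    rw [comp_im h01 pp h1, update_comp, update_comp, update_comp, update_comp, hπ0, hπ1,
      update_eq_self, update_eq_self]

/-- **Linking the handles `i` and `j`.** -/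
theorem exists_link {g : ℕ} {i j : Fin g} (hij : i ≠ j) : ∃ a ∈ TG.Mod g,
    ∀ (Q : Type) [Group Q] (X e : Fin g → Q), Good X e → X i = 1 → e j = 1 →
      (X j = 1 → (HH X e).comp (a⁻¹).toMonoidHom = HH X e) ∧
      (X j = (e i)⁻¹ → (HH X e).comp (a⁻¹).toMonoidHom = HH X (update e i 1)) := by
  obtain ⟨n, rfl⟩ : ∃ n, g = n + 2 := by
    rcases g with _ | _ | n
    · exact i.elim0
    · exact absurd (Fin.ext (by have := i.2; have := j.2; omega)) hij
    · exact ⟨n, rfl⟩
  have h01 : (0 : Fin (n + 1)).castSucc ≠ (0 : Fin (n + 1)).succ := adj_ne 0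
  obtain ⟨π, hπ0, hπ1⟩ := exists_perm2 h01 hij
  obtain ⟨σ, hσ, hσa⟩ := exists_acts π
  refine ⟨σ * im h01 aa * σ⁻¹, mul_mem (mul_mem hσ (im_mem 0 aa_mem)) (inv_mem hσ), ?_⟩
  have einv : (σ * im h01 aa * σ⁻¹)⁻¹ = σ * im h01 aa⁻¹ * σ⁻¹ := by
    rw [mul_inv_rev, mul_inv_rev, inv_inv, im_inv, mul_assoc]
  rw [einv]
  intro Q _ X e h hX he
  refine ⟨fun hX' => ?_, fun hX' => ?_⟩
  · refine acts_conj hσa h h ?_
    have h1 : (HH ![(X ∘ π) (0 : Fin (n + 1)).castSucc, (X ∘ π) (0 : Fin (n + 1)).succ]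
        ![(e ∘ π) (0 : Fin (n + 1)).castSucc, (e ∘ π) (0 : Fin (n + 1)).succ]).comp
          (aa⁻¹).toMonoidHom = HH ![X i, X j] ![e i, e j] := by
      rw [comp_apply, comp_apply, comp_apply, comp_apply, hπ0, hπ1, he, hX, hX']
      exact comp_aa1 _
    rw [comp_im h01 aa⁻¹ h1, update_comp, update_comp, update_comp, update_comp, hπ0, hπ1,
      update_eq_self, update_eq_self, update_eq_self, update_eq_self]
  · have h' : Good X (update e i 1) := by
      intro l
      by_cases hl : l = i
      · subst hl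
        rw [update_self]
        exact Commute.one_right _
      · rw [update_of_ne hl]
        exact h l
    refine acts_conj hσa h h' ?_
    have h1 : (HH ![(X ∘ π) (0 : Fin (n + 1)).castSucc, (X ∘ π) (0 : Fin (n + 1)).succ]
        ![(e ∘ π) (0 : Fin (n + 1)).castSucc, (e ∘ π) (0 : Fin (n + 1)).succ]).comp
          (aa⁻¹).toMonoidHom = HH ![X i, X j] ![1, e j] := by
      rw [comp_apply, comp_apply, comp_apply, comp_apply, hπ0, hπ1, he, hX, hX']
      exact comp_aa2 _
    have h2 : update (update e i 1) j (e j) = update e i 1 := by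
      have h3 : (update e i 1) j = e j := update_of_ne hij.symm _ _
      rw [← h3, update_eq_self]
    rw [comp_im h01 aa⁻¹ h1, update_comp, update_comp, update_comp, update_comp, hπ0, hπ1,
      update_eq_self, update_eq_self, h2]

end Pool.Agent.N518.HQ
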