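import Pool.Agent.N518.HQ.Pi1

/-!
# The construction
-/

set_option autoImplicit false

open scoped commutatorElement

namespace Pool.Agent.N518.HQ

open Pool.Agent.N518.TG Function

section
variable {g k : ℕ}

open Classical in
/-- all handles `A i` are linked with the handles `C i` -/
theorem exists_links {A C : Fin k → Fin g} (hA : Injective A)
    (hAC : ∀ i j, A i ≠ C j) (s : Finset (Fin k)) : ∃ a ∈ TG.Mod g,
    ∀ (Q : Type) [Group Q] (X e : Fin g → Q), Good X e → (∀ i ∈ s, X (A i) = 1) →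
      (∀ i ∈ s, e (C i) = 1) →
      ((∀ i ∈ s, X (C i) = 1) → (HH X e).comp (a⁻¹).toMonoidHom = HH X e) ∧
      ((∀ i ∈ s, X (C i) = (e (A i))⁻¹) → (HH X e).comp (a⁻¹).toMonoidHom =
        HH X fun l => if ∃ i ∈ s, A i = l then 1 else e l) := by
  induction s using Finset.induction_on with
  | empty =>
    refine ⟨1, one_mem _, fun Q _ X e _ _ _ => ⟨fun _ => rfl, fun _ => ?_⟩⟩
    simp only [Finset.notMem_empty, false_and, exists_false, if_false]
    rfl
  | insert i s hi ih =>
    obtain ⟨a, ha, h⟩ := ih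
    obtain ⟨b, hb, h'⟩ := exists_link (hAC i i)
    refine ⟨b * a, mul_mem hb ha, fun Q _ X e hg hX he => ?_⟩
    have hX' : ∀ j ∈ s, X (A j) = 1 := fun j hj => hX j (Finset.mem_insert_of_mem hj)
    have he' : ∀ j ∈ s, e (C j) = 1 := fun j hj => he j (Finset.mem_insert_of_mem hj)
    have hXi := hX i (Finset.mem_insert_self i s)
    have hei := he i (Finset.mem_insert_self i s)
    obtain ⟨k1, k2⟩ := h Q X e hg hX' he'
    rw [mul_inv_rev]
    refine ⟨fun hc => ?_, fun hc => ?_⟩
    · rw [comp_mul, k1 fun j hj => hc j (Finset.mem_insert_of_mem hj)]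
      exact (h' Q X e hg hXi hei).1 (hc i (Finset.mem_insert_self i s))
    · rw [comp_mul, k2 fun j hj => hc j (Finset.mem_insert_of_mem hj)]
      set e₁ : Fin g → Q := fun l => if ∃ i ∈ s, A i = l then 1 else e l with he₁
      have g1 : Good X e₁ := by
        intro l
        rw [he₁]
        dsimp only
        split_ifs
        · exact Commute.one_right _
        · exact hg l
      have c1 : e₁ (C i) = 1 := by
        rw [he₁]
        dsimp only
        split_ifs
        · rfl
        · exact hei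
      have c2 : e₁ (A i) = e (A i) := by
        rw [he₁]
        dsimp only
        rw [if_neg]
        rintro ⟨j, hj, hj'⟩
        exact hi (hA hj' ▸ hj)
      rw [(h' Q X e₁ g1 hXi c1).2 (by rw [c2]; exact hc i (Finset.mem_insert_self i s))]
      congr 1
      funext l
      by_cases hl : l = A i
      · subst hl
        rw [update_self, if_pos ⟨i, Finset.mem_insert_self i s, rfl⟩]
      · rw [update_of_ne hl, he₁]
        dsimp only
        by_cases h1 : ∃ j ∈ s, A j = l
        · obtain ⟨j, hj, hj'⟩ := h1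
          rw [if_pos ⟨j, hj, hj'⟩, if_pos ⟨j, Finset.mem_insert_of_mem hj, hj'⟩]
        · rw [if_neg h1, if_neg]
          rintro ⟨j, hj, hj'⟩
          rcases Finset.mem_insert.1 hj with rfl | hj
          · exact hl hj'.symm
          · exact h1 ⟨j, hj, hj'⟩

end

/-- **The construction.** -/
theorem exists_constr {Q : Type} [Group Q] (hQ : commutator Q = ⊤) {k : ℕ} (d : Fin k → Q)
    (hd : Subgroup.closure (Set.range d) = ⊤) (P : Heegaard) (hP : P.2 ∈ Torelli P.1) :
    ∃ (φ a : MulAut (Surf (P.1 + (k + k))))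
      (PP : Subgroup (MulAut (Surf (P.1 + (k + k))) × (Fin k → Q))),
      φ ∈ Torelli _ ∧ Homeo P ⟨_, φ⟩ ∧ a ∈ TG.Mod _ ∧
      (∀ κ : Fin k → Q, ∃ ψ ∈ Torelli (P.1 + (k + k)), (ψ, κ) ∈ PP) ∧
      ∀ w, (w, d) ∈ PP →
        ∃ f : Pi1 ⟨P.1 + (k + k), φ * (a * w * a⁻¹)⟩ →* Q, Surjective f := by
  classical
  set g := P.1 + (k + k) with hg
  let A : Fin k → Fin g := fun i => Fin.natAdd P.1 (Fin.castAdd k i)
  let C : Fin k → Fin g := fun i => Fin.natAdd P.1 (Fin.natAdd k i)
  have hAv : ∀ i, (A i).1 = P.1 + i.1 := fun i => rfl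
  have hCv : ∀ i, (C i).1 = P.1 + (k + i.1) := fun i => rfl
  have hA : Injective A := by
    intro i j h
    have := congrArg Fin.val h
    rw [hAv, hAv] at this
    exact Fin.ext (by omega)
  have hC : Injective C := by
    intro i j h
    have := congrArg Fin.val h
    rw [hCv, hCv] at this
    exact Fin.ext (by omega)
  have hAC : ∀ i j, A i ≠ C j := by
    intro i j h
    have := congrArg Fin.val h
    rw [hAv, hCv] at this
    have := i.2
    omega
  set e : Fin g → Q := ex A d with he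
  have heA : ∀ i, e (A i) = d i := fun i => ex_apply hA d i
  have heC : ∀ i, e (C i) = 1 := fun i => ex_other d fun j => hAC j i
  have heB : ∀ l : Fin g, l.1 < P.1 → e l = 1 := fun l hl => ex_other d fun j hj => by
    have := congrArg Fin.val hj
    rw [hAv] at this
    omega
  obtain ⟨φ, hφ, hφH, hφQ⟩ := exists_stab P.1 hP (k + k)
  obtain ⟨a, ha, haQ⟩ := exists_links hA hAC Finset.univ
  have hgen : Subgroup.closure (Set.range fun i => e (A i)) = ⊤ := by
    have : (fun i => e (A i)) = d := funext heA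
    rw [this, hd]
  refine ⟨φ, a, PP hC heC, hφ, hφH, ha, fun κ => exists_torelli hC heC hAC hgen hQ κ,
    fun w hw => ?_⟩
  set ρ : Surf g →* Q := HH 1 e with hρ
  set X2 : Fin g → Q := (ex C d)⁻¹ * 1 with hX2
  have g1 : Good (1 : Fin g → Q) e := fun l => Commute.one_left _
  have h1 : ρ.comp φ.toMonoidHom = ρ := hφQ Q 1 e (fun _ _ => rfl) heB
  have h2 : ρ.comp (a⁻¹).toMonoidHom = ρ :=
    (haQ Q 1 e g1 (fun _ _ => rfl) fun i _ => heC i).1 fun _ _ => rfl
  have h3 : ρ.comp a.toMonoidHom = ρ := by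
    have := comp_inv_cancel h2
    rwa [inv_inv] at this
  have h4 : ρ.comp w.toMonoidHom = HH X2 e := hw 1 g1
  have g2 : Good X2 e := by
    rw [hX2, ← ex_inv]
    exact good_ex heC _ g1
  have x1 : ∀ i, X2 (A i) = 1 := by
    intro i
    rw [hX2, mul_one, Pi.inv_apply, ex_other d fun j => (hAC i j).symm, inv_one]
  have x2 : ∀ i, X2 (C i) = (e (A i))⁻¹ := by
    intro i
    rw [hX2, mul_one, Pi.inv_apply, ex_apply hC, heA]
  have h5 : (HH X2 e).comp (a⁻¹).toMonoidHom = HH X2 1 := by
    rw [(haQ Q X2 e g2 (fun i _ => x1 i) fun i _ => heC i).2 fun i _ => x2 i]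
    congr 1
    funext l
    split_ifs with h
    · rfl
    · exact ex_other d fun j hj => h ⟨j, Finset.mem_univ j, hj⟩
  have h6 : ρ.comp (φ * (a * w * a⁻¹)).toMonoidHom = HH X2 1 := by
    rw [comp_mul, h1, comp_mul, comp_mul, h3, h4, h5]
  refine exists_epi (P := ⟨g, φ * (a * w * a⁻¹)⟩) ρ ?_ (fun i => ?_) fun i => ?_
  · rw [← MonoidHom.range_eq_top, eq_top_iff, ← hd, Subgroup.closure_le]
    rintro _ ⟨i, rfl⟩
    exact ⟨yy (A i), by rw [hρ, HH_y, heA]⟩
  · rw [hρ, HH_x]
    rfl
  · have := DFunLike.congr_fun h6 (yy i)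
    rw [HH_y] at this
    exact this

end Pool.Agent.N518.HQ
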