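import Mathlib

/-!
# Elements of the lower central series with prescribed values in a perfect group
-/

set_option autoImplicit false

open scoped commutatorElement

namespace Pool.Agent.N518.HQ

section
variable {G : Type*} [Group G]

theorem three (N H1 H2 H3 : Subgroup G) [N.Normal] (h1 : ⁅⁅H2, H3⁆, H1⁆ ≤ N)
    (h2 : ⁅⁅H3, H1⁆, H2⁆ ≤ N) : ⁅⁅H1, H2⁆, H3⁆ ≤ N := by
  have key : ∀ X : Subgroup G, X ≤ N ↔ X.map (QuotientGroup.mk' N) = ⊥ := by
    intro X
    rw [Subgroup.map_eq_bot_iff, QuotientGroup.ker_mk']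
  rw [key, Subgroup.map_commutator, Subgroup.map_commutator] at h1 h2 ⊢
  exact Subgroup.commutator_commutator_eq_bot_of_rotate h1 h2

theorem lcs_comm_top (j : ℕ) : ∀ i, ⁅(⊤ : Subgroup G).lowerCentralSeries i,
    (⊤ : Subgroup G).lowerCentralSeries j⁆ ≤ (⊤ : Subgroup G).lowerCentralSeries (i + j + 1) := by
  induction j with
  | zero =>
    intro i
    rfl
  | succ j ih =>
    intro i
    rw [Subgroup.commutator_comm, Subgroup.lowerCentralSeries_succ]
    apply three
    · rw [Subgroup.commutator_comm ⊤, ← Subgroup.lowerCentralSeries_succ]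
      refine (ih (i + 1)).trans (le_of_eq ?_)
      congr 1
      omega
    · have h1 := Subgroup.commutator_mono (ih i) (le_refl (⊤ : Subgroup G))
      rw [← Subgroup.lowerCentralSeries_succ] at h1
      refine h1.trans (le_of_eq ?_)
      congr 1

theorem lcs_comm (T : Subgroup G) (i j : ℕ) :
    ⁅T.lowerCentralSeries i, T.lowerCentralSeries j⁆ ≤ T.lowerCentralSeries (i + j + 1) := by
  rw [← Subgroup.top_subtype_lowerCentralSeries T i, ← Subgroup.top_subtype_lowerCentralSeries T j,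
    ← Subgroup.top_subtype_lowerCentralSeries T (i + j + 1), ← Subgroup.map_commutator]
  exact Subgroup.map_mono (lcs_comm_top j i)

/-- the index in the lower central series of the `2 ^ m`-th term -/
def ix (m : ℕ) : ℕ := 2 ^ m - 1

theorem ix_succ (m : ℕ) : ix (m + 1) = ix m + ix m + 1 := by
  unfold ix
  have : 1 ≤ 2 ^ m := Nat.one_le_two_pow
  rw [pow_succ]
  omega

variable {K : Type*} [Group K]

/-- `κ` is reached by a product of at most `L` elements of `S` which lies in the `2 ^ m`-th term of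
the lower central series of `T` -/
def Rch (T : Subgroup G) (P : Subgroup (G × K)) (S : Set G) (m L : ℕ) (κ : K) : Prop :=
  ∃ l : List G, (∀ s ∈ l, s ∈ S) ∧ l.length ≤ L ∧ l.prod ∈ T.lowerCentralSeries (ix m) ∧
    (l.prod, κ) ∈ P

variable {T : Subgroup G} {P : Subgroup (G × K)} {S : Set G}

theorem Rch.mono {m L L' : ℕ} {κ : K} (h : Rch T P S m L κ) (hL : L ≤ L') :
    Rch T P S m L' κ := by
  obtain ⟨l, h1, h2, h3, h4⟩ := h
  exact ⟨l, h1, h2.trans hL, h3, h4⟩

theorem Rch.one (m : ℕ) : Rch T P S m 0 (1 : K) := by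
  refine ⟨[], by simp, le_refl _, ?_, ?_⟩
  · rw [List.prod_nil]; exact one_mem _
  · rw [List.prod_nil]; exact one_mem P

theorem Rch.mul {m L L' : ℕ} {κ κ' : K} (h : Rch T P S m L κ) (h' : Rch T P S m L' κ') :
    Rch T P S m (L + L') (κ * κ') := by
  obtain ⟨l, h1, h2, h3, h4⟩ := h
  obtain ⟨l', h1', h2', h3', h4'⟩ := h'
  refine ⟨l ++ l', ?_, ?_, ?_, ?_⟩
  · intro s hs
    rcases List.mem_append.1 hs with hs | hs
    · exact h1 s hs
    · exact h1' s hs
  · rw [List.length_append]; omega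
  · rw [List.prod_append]; exact mul_mem h3 h3'
  · rw [List.prod_append]; exact mul_mem h4 h4'

theorem Rch.inv (hS : ∀ s ∈ S, s⁻¹ ∈ S) {m L : ℕ} {κ : K} (h : Rch T P S m L κ) :
    Rch T P S m L κ⁻¹ := by
  obtain ⟨l, h1, h2, h3, h4⟩ := h
  have e : ((l.map fun s => s⁻¹).reverse).prod = l.prod⁻¹ := (List.prod_inv_reverse l).symm
  refine ⟨(l.map fun s => s⁻¹).reverse, ?_, ?_, ?_, ?_⟩
  · intro s hs
    rw [List.mem_reverse, List.mem_map] at hs
    obtain ⟨t, ht, rfl⟩ := hs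
    exact hS t (h1 t ht)
  · rw [List.length_reverse, List.length_map]; exact h2
  · rw [e]; exact inv_mem h3
  · rw [e]; exact inv_mem h4

theorem Rch.comm (hS : ∀ s ∈ S, s⁻¹ ∈ S) {m L L' : ℕ} {κ κ' : K} (h : Rch T P S m L κ)
    (h' : Rch T P S m L' κ') : Rch T P S (m + 1) (2 * (L + L')) ⁅κ, κ'⁆ := by
  have hi := h.inv hS
  obtain ⟨l, h1, h2, h3, h4⟩ := h
  obtain ⟨l', h1', h2', h3', h4'⟩ := h'
  have e : ((l.map fun s => s⁻¹).reverse).prod = l.prod⁻¹ := (List.prod_inv_reverse l).symm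
  have e' : ((l'.map fun s => s⁻¹).reverse).prod = l'.prod⁻¹ := (List.prod_inv_reverse l').symm
  have ep : (l ++ l' ++ (l.map fun s => s⁻¹).reverse ++ (l'.map fun s => s⁻¹).reverse).prod =
      ⁅l.prod, l'.prod⁆ := by
    rw [List.prod_append, List.prod_append, List.prod_append, e, e', commutatorElement_def]
  refine ⟨l ++ l' ++ (l.map fun s => s⁻¹).reverse ++ (l'.map fun s => s⁻¹).reverse, ?_, ?_, ?_, ?_⟩
  · intro s hs
    simp only [List.mem_append, List.mem_reverse, List.mem_map] at hs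
    rcases hs with ((hs | hs) | ⟨t, ht, rfl⟩) | ⟨t, ht, rfl⟩
    · exact h1 s hs
    · exact h1' s hs
    · exact hS t (h1 t ht)
    · exact hS t (h1' t ht)
  · simp only [List.length_append, List.length_reverse, List.length_map]
    omega
  · rw [ep, ix_succ]
    exact lcs_comm T _ _ (Subgroup.commutator_mem_commutator h3 h3')
  · rw [ep]
    have := mul_mem (mul_mem (mul_mem h4 h4') (inv_mem h4)) (inv_mem h4')
    rw [commutatorElement_def, commutatorElement_def]
    exact this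

/-! ### the recursion -/

variable (T P S) in
/-- `κ` costs at most `c` times more than the elements of `D`, at the next level -/
def Cost (D : Set K) (j : ℕ) (c : ℕ) (κ : K) : Prop :=
  ∀ m L : ℕ, (∀ d ∈ D, Rch T P S m L d) → Rch T P S (m + j) (c * L) κ

theorem cost_gen (hS : ∀ s ∈ S, s⁻¹ ∈ S) {D : Set K} {κ : K} (hκ : κ ∈ Subgroup.closure D) :
    ∃ c, Cost T P S D 0 c κ := by
  induction hκ using Subgroup.closure_induction with
  | mem x hx => exact ⟨1, fun m L h => by rw [one_mul]; exact h x hx⟩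
  | one => exact ⟨0, fun m L h => by rw [zero_mul]; exact Rch.one m⟩
  | mul x y _ _ hx hy =>
    obtain ⟨c, hc⟩ := hx
    obtain ⟨c', hc'⟩ := hy
    exact ⟨c + c', fun m L h => by rw [add_mul]; exact (hc m L h).mul (hc' m L h)⟩
  | inv x _ hx =>
    obtain ⟨c, hc⟩ := hx
    exact ⟨c, fun m L h => (hc m L h).inv hS⟩

theorem cost_comm (hS : ∀ s ∈ S, s⁻¹ ∈ S) {D : Set K} (hD : Subgroup.closure D = ⊤)
    (hK : commutator K = ⊤) (κ : K) : ∃ c, Cost T P S D 1 c κ := by
  have hκ : κ ∈ commutator K := hK ▸ Subgroup.mem_top κ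
  rw [commutator_eq_closure] at hκ
  induction hκ using Subgroup.closure_induction with
  | mem x hx =>
    obtain ⟨a, b, rfl⟩ := hx
    obtain ⟨c, hc⟩ := cost_gen (T := T) (P := P) hS (κ := a) (hD ▸ Subgroup.mem_top a)
    obtain ⟨c', hc'⟩ := cost_gen (T := T) (P := P) hS (κ := b) (hD ▸ Subgroup.mem_top b)
    refine ⟨2 * (c + c'), fun m L h => ?_⟩
    have h1 := (hc m L h).comm hS (hc' m L h)
    rw [← add_mul, ← mul_assoc] at h1
    exact h1
  | one => exact ⟨0, fun m L h => by rw [zero_mul]; exact Rch.one _⟩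
  | mul x y _ _ hx hy =>
    obtain ⟨c, hc⟩ := hx
    obtain ⟨c', hc'⟩ := hy
    exact ⟨c + c', fun m L h => by rw [add_mul]; exact (hc m L h).mul (hc' m L h)⟩
  | inv x _ hx =>
    obtain ⟨c, hc⟩ := hx
    exact ⟨c, fun m L h => (hc m L h).inv hS⟩

theorem cost_iter {D : Set K} {c : ℕ} (hc : ∀ d ∈ D, Cost T P S D 1 c d)
    (h0 : ∀ d ∈ D, Rch T P S 0 1 d) (m : ℕ) : ∀ d ∈ D, Rch T P S m (c ^ m) d := by
  induction m with
  | zero => simpa using h0
  | succ m ih =>
    intro d hd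
    have h1 := hc d hd m (c ^ m) ih
    rwa [← pow_succ'] at h1

/-- products of `r` commutators -/
def ProdComm (r : ℕ) (κ : K) : Prop := ∃ a b : Fin r → K, κ = (List.ofFn fun i => ⁅a i, b i⁆).prod

theorem cost_width (hS : ∀ s ∈ S, s⁻¹ ∈ S) {r : ℕ} {κ : K} (hκ : ProdComm r κ) :
    Cost T P S (Set.univ : Set K) 1 (4 * r) κ := by
  obtain ⟨a, b, rfl⟩ := hκ
  intro m L h
  induction r with
  | zero => simpa using Rch.one (T := T) (P := P) (S := S) (m + 1)
  | succ r ih =>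
    rw [List.ofFn_succ, List.prod_cons]
    have h1 := (h (a 0) (Set.mem_univ _)).comm hS (h (b 0) (Set.mem_univ _))
    have h2 := h1.mul (ih (fun i => a i.succ) (fun i => b i.succ))
    refine h2.mono (le_of_eq ?_)
    ring

/-- **Elements deep in the lower central series with prescribed values in a finitely generated
perfect group.** -/
theorem exists_deep (hP : ∀ κ : K, ∃ φ ∈ T, (φ, κ) ∈ P) (hK : commutator K = ⊤) [Group.FG K]
    (κ : K) : ∃ (S : Finset G) (C : ℕ), (∀ s ∈ S, s ∈ T) ∧ ∀ n : ℕ, ∃ l : List G,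
      (∀ s ∈ l, s ∈ S) ∧ l.length ≤ C * (n + 1) ^ C ∧ l.prod ∈ T.lowerCentralSeries n ∧
        (l.prod, κ) ∈ P := by
  classical
  obtain ⟨_, D, _, hD⟩ := (Group.fg_iff' (G := K)).1 inferInstance
  choose φ hφ hφP using hP
  set S : Finset G := (D.image φ) ∪ (D.image φ).image (fun s => s⁻¹) with hSdef
  have hS : ∀ s ∈ (S : Set G), s⁻¹ ∈ (S : Set G) := by
    intro s hs
    rw [Finset.mem_coe, hSdef, Finset.mem_union, Finset.mem_image, Finset.mem_image] at hs ⊢
    rcases hs with ⟨d, hd, rfl⟩ | ⟨t, ht, rfl⟩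
    · exact Or.inr ⟨φ d, Finset.mem_image_of_mem φ hd, rfl⟩
    · rw [inv_inv]
      left
      exact Finset.mem_image.1 ht
  have h0 : ∀ d ∈ (D : Set K), Rch T P (S : Set G) 0 1 d := by
    intro d hd
    refine ⟨[φ d], ?_, by simp, ?_, ?_⟩
    · intro s hs
      rw [List.mem_singleton] at hs
      rw [hs, Finset.mem_coe, hSdef, Finset.mem_union]
      exact Or.inl (Finset.mem_image_of_mem φ hd)
    · rw [List.prod_singleton]
      exact hφ d
    · rw [List.prod_singleton]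
      exact hφP d
  choose c hc using fun κ : K => cost_comm (T := T) (P := P) hS hD hK κ
  set c₀ : ℕ := ∑ d ∈ D, c d + 1 with hc₀
  have hc' : ∀ d ∈ (D : Set K), Cost T P (S : Set G) (D : Set K) 1 c₀ d := by
    intro d hd m L h
    refine (hc d m L h).mono (Nat.mul_le_mul_right _ ?_)
    have := Finset.single_le_sum (f := c) (fun i _ => Nat.zero_le _) (Finset.mem_coe.1 hd)
    omega
  obtain ⟨b, hb⟩ := cost_gen (T := T) (P := P) hS (D := (D : Set K)) (κ := κ)
    (hD ▸ Subgroup.mem_top κ)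
  -- `c₀ ≤ 2 ^ a`
  obtain ⟨a, ha⟩ : ∃ a : ℕ, c₀ ≤ 2 ^ a := ⟨c₀, Nat.lt_two_pow_self.le⟩
  refine ⟨S, b * 2 ^ a + a + 1, ?_, fun n => ?_⟩
  · intro s hs
    rw [hSdef, Finset.mem_union, Finset.mem_image, Finset.mem_image] at hs
    rcases hs with ⟨d, _, rfl⟩ | ⟨t, ht, rfl⟩
    · exact hφ d
    · obtain ⟨d, _, rfl⟩ := Finset.mem_image.1 ht
      exact inv_mem (hφ d)
  · -- choose `m` with `n < 2 ^ m ≤ 2 (n + 1)`
    obtain ⟨m, hm1, hm2⟩ : ∃ m : ℕ, n < 2 ^ m ∧ 2 ^ m ≤ 2 * (n + 1) := by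
      refine ⟨Nat.log 2 n + 1, Nat.lt_pow_succ_log_self (by norm_num) n, ?_⟩
      rcases Nat.eq_zero_or_pos n with rfl | hn
      · simp
      · have := Nat.pow_log_le_self 2 hn.ne'
        rw [pow_succ]
        omega
    obtain ⟨l, h1, h2, h3, h4⟩ := hb m (c₀ ^ m) (cost_iter hc' h0 m)
    refine ⟨l, h1, h2.trans ?_, ?_, h4⟩
    · have e1 : c₀ ^ m ≤ (2 * (n + 1)) ^ a := by
        calc c₀ ^ m ≤ (2 ^ a) ^ m := Nat.pow_le_pow_left ha m
          _ = (2 ^ m) ^ a := by rw [← pow_mul, ← pow_mul, mul_comm]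
          _ ≤ (2 * (n + 1)) ^ a := Nat.pow_le_pow_left hm2 a
      calc b * c₀ ^ m ≤ b * (2 * (n + 1)) ^ a := Nat.mul_le_mul_left _ e1
        _ = (b * 2 ^ a) * (n + 1) ^ a := by rw [mul_pow]; ring
        _ ≤ (b * 2 ^ a + a + 1) * (n + 1) ^ (b * 2 ^ a + a + 1) := by
            refine Nat.mul_le_mul (by omega) (Nat.pow_le_pow_right (by omega) (by omega))
    · have h3' : l.prod ∈ T.lowerCentralSeries (ix m) := h3
      refine Subgroup.lowerCentralSeries_antitone _ ?_ h3'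
      unfold ix
      omega

/-- The same for finite groups in which every element is a product of `r` commutators. -/
theorem exists_deep_width (hP : ∀ κ : K, ∃ φ ∈ T, (φ, κ) ∈ P) [Finite K] {r : ℕ} (hr : 1 ≤ r)
    (hK : ∀ κ : K, ProdComm r κ) (κ : K) : ∃ S : Finset G, (∀ s ∈ S, s ∈ T) ∧ ∀ n : ℕ,
      ∃ l : List G, (∀ s ∈ l, s ∈ S) ∧
        (l.length : ℝ) ≤ 4 * r * ((n : ℝ) + 1) ^ (2 + Real.logb 2 r) ∧
        l.prod ∈ T.lowerCentralSeries n ∧ (l.prod, κ) ∈ P := by
  classical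
  have := Fintype.ofFinite K
  choose φ hφ hφP using hP
  set S : Finset G := (Finset.univ.image φ) ∪ (Finset.univ.image φ).image (fun s => s⁻¹) with hSdef
  have hS : ∀ s ∈ (S : Set G), s⁻¹ ∈ (S : Set G) := by
    intro s hs
    rw [Finset.mem_coe, hSdef, Finset.mem_union, Finset.mem_image, Finset.mem_image] at hs ⊢
    rcases hs with ⟨d, hd, rfl⟩ | ⟨t, ht, rfl⟩
    · exact Or.inr ⟨φ d, Finset.mem_image_of_mem φ hd, rfl⟩
    · rw [inv_inv]
      left
      exact Finset.mem_image.1 ht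
  have h0 : ∀ d ∈ (Set.univ : Set K), Rch T P (S : Set G) 0 1 d := by
    intro d _
    refine ⟨[φ d], ?_, by simp, ?_, ?_⟩
    · intro s hs
      rw [List.mem_singleton] at hs
      rw [hs, Finset.mem_coe, hSdef, Finset.mem_union]
      exact Or.inl (Finset.mem_image_of_mem φ (Finset.mem_univ d))
    · rw [List.prod_singleton]
      exact hφ d
    · rw [List.prod_singleton]
      exact hφP d
  have h1 := cost_iter (fun d _ => cost_width (T := T) (P := P) hS (hK d)) h0
  refine ⟨S, ?_, fun n => ?_⟩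
  · intro s hs
    rw [hSdef, Finset.mem_union, Finset.mem_image, Finset.mem_image] at hs
    rcases hs with ⟨d, _, rfl⟩ | ⟨t, ht, rfl⟩
    · exact hφ d
    · obtain ⟨d, _, rfl⟩ := Finset.mem_image.1 ht
      exact inv_mem (hφ d)
  · obtain ⟨m, hm1, hm2⟩ : ∃ m : ℕ, n < 2 ^ m ∧ 2 ^ m ≤ 2 * (n + 1) := by
      refine ⟨Nat.log 2 n + 1, Nat.lt_pow_succ_log_self (by norm_num) n, ?_⟩
      rcases Nat.eq_zero_or_pos n with rfl | hn
      · simp
      · have := Nat.pow_log_le_self 2 hn.ne'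
        rw [pow_succ]
        omega
    obtain ⟨l, h2, h3, h4, h5⟩ := h1 m κ (Set.mem_univ _)
    refine ⟨l, h2, ?_, ?_, h5⟩
    · have hr0 : (0 : ℝ) < r := by exact_mod_cast hr
      have h6 : (l.length : ℝ) ≤ (4 * r : ℝ) ^ m := by exact_mod_cast h3
      refine h6.trans ?_
      have e1 : (4 * r : ℝ) = (2 : ℝ) ^ (2 + Real.logb 2 r) := by
        rw [Real.rpow_add (by norm_num), Real.rpow_logb (by norm_num) (by norm_num) hr0]
        norm_num
      have hx : 0 ≤ 2 + Real.logb 2 (r : ℝ) := by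
        have : 0 ≤ Real.logb 2 (r : ℝ) := Real.logb_nonneg (by norm_num) (by exact_mod_cast hr)
        linarith
      have e2 : (4 * r : ℝ) ^ m = ((2 : ℝ) ^ m) ^ (2 + Real.logb 2 r) := by
        rw [e1, ← Real.rpow_natCast, ← Real.rpow_mul (by norm_num), ← Real.rpow_natCast,
          ← Real.rpow_mul (by norm_num), mul_comm]
      have e3 : ((2 : ℝ) ^ m) ≤ 2 * ((n : ℝ) + 1) := by exact_mod_cast hm2
      calc (4 * r : ℝ) ^ m = ((2 : ℝ) ^ m) ^ (2 + Real.logb 2 r) := e2
        _ ≤ (2 * ((n : ℝ) + 1)) ^ (2 + Real.logb 2 r) :=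
            Real.rpow_le_rpow (by positivity) e3 hx
        _ = (2 : ℝ) ^ (2 + Real.logb 2 r) * ((n : ℝ) + 1) ^ (2 + Real.logb 2 r) :=
            Real.mul_rpow (by norm_num) (by positivity)
        _ = 4 * r * ((n : ℝ) + 1) ^ (2 + Real.logb 2 r) := by rw [← e1]
    · refine Subgroup.lowerCentralSeries_antitone _ ?_ h4
      unfold ix
      omega

end

end Pool.Agent.N518.HQ
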