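import Pool.Agent.N518.HQ.Act
import Pool.Agent.N518.HQ.Lcs
import Pool.Agent.N518.TG.Main

/-!
# The Torelli group acts transitively enough on the homomorphisms to a perfect group
-/

set_option autoImplicit false

open scoped commutatorElement

namespace Pool.Agent.N518.HQ

open Pool.Agent.N518.TG Function

section
variable {g : ℕ}

/-- the class in homology -/
abbrev ab : Surf g →* Abelianization (Surf g) := Abelianization.of

/-- the subgroup generated by the classes of the `y_i` -/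
def YY (g : ℕ) : Subgroup (Abelianization (Surf g)) :=
  Subgroup.closure (Set.range fun i : Fin g => ab (yy i))

/-- the mapping classes which act trivially on the subgroup `Y` of the homology and on the quotient -/
def Uni (g : ℕ) : Subgroup (MulAut (Surf g)) where
  carrier := {φ | φ ∈ TG.Mod g ∧ (∀ w, ab w ∈ YY g → ab (φ w) = ab w) ∧
    ∀ w, ab (φ w) * (ab w)⁻¹ ∈ YY g}
  mul_mem' := by
    rintro φ ψ ⟨h1, h2, h3⟩ ⟨h1', h2', h3'⟩
    refine ⟨mul_mem h1 h1', fun w hw => ?_, fun w => ?_⟩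
    · have e := h2' w hw
      show ab (φ (ψ w)) = ab w
      rw [h2 (ψ w) (e ▸ hw), e]
    · show ab (φ (ψ w)) * (ab w)⁻¹ ∈ YY g
      have := mul_mem (h3 (ψ w)) (h3' w)
      rwa [mul_assoc, inv_mul_cancel_left] at this
  one_mem' := ⟨one_mem _, fun w _ => rfl, fun w => by
    show ab w * (ab w)⁻¹ ∈ YY g
    rw [mul_inv_cancel]
    exact one_mem _⟩
  inv_mem' := by
    rintro φ ⟨h1, h2, h3⟩
    have e : ∀ w, φ (φ⁻¹ w) = w := fun w => MulEquiv.apply_symm_apply φ w
    refine ⟨inv_mem h1, fun w hw => ?_, fun w => ?_⟩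
    · have h4 := h3 (φ⁻¹ w)
      rw [e] at h4
      have h5 : ab (φ⁻¹ w) ∈ YY g := by
        have := mul_mem (inv_mem h4) hw
        rwa [mul_inv_rev, inv_inv, inv_mul_cancel_right] at this
      have h6 := h2 _ h5
      rw [e] at h6
      exact h6.symm
    · have h4 := inv_mem (h3 (φ⁻¹ w))
      rwa [e, mul_inv_rev, inv_inv] at h4

/-- a sufficient condition -/
theorem uni_of {φ : MulAut (Surf g)} (h : φ ∈ TG.Mod g) {X : Fin g → Abelianization (Surf g)}
    (hφ : (ab (g := g)).comp φ.toMonoidHom = HH X fun l => ab (yy l))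
    (hX : ∀ l, X l * (ab (xx l))⁻¹ ∈ YY g) : φ ∈ Uni g := by
  have hx : ∀ l, ab (φ (xx l)) = X l := fun l => by
    have := DFunLike.congr_fun hφ (xx l)
    rwa [HH_x] at this
  have hy : ∀ l, ab (φ (yy l)) = ab (yy l) := fun l => by
    have := DFunLike.congr_fun hφ (yy l)
    rwa [HH_y] at this
  refine ⟨h, fun w hw => ?_, fun w => ?_⟩
  · set β := Abelianization.lift ((ab (g := g)).comp φ.toMonoidHom) with hβ
    have h1 : ∀ w, β (ab w) = ab (φ w) := fun w => Abelianization.lift_apply_of _ _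
    have h2 : ∀ y ∈ YY g, β y = y := by
      intro y hy'
      unfold YY at hy'
      induction hy' using Subgroup.closure_induction with
      | mem x hx =>
        obtain ⟨i, rfl⟩ := hx
        show β (ab (yy i)) = _
        rw [h1, hy]
      | one => exact map_one β
      | mul x y _ _ hx hy => rw [map_mul, hx, hy]
      | inv x _ hx => rw [map_inv, hx]
    rw [← h1, h2 _ hw]
  · have key : ∀ w : Surf g, ab (φ w) * (ab w)⁻¹ ∈ YY g := by
      intro w
      induction w using FreeGroup.induction_on with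
      | C1 =>
        rw [map_one, map_one, inv_one, mul_one]
        exact one_mem _
      | of p =>
        obtain ⟨l, b⟩ := p
        cases b with
        | false =>
          have := hX l
          rw [← hx] at this
          exact this
        | true =>
          have := hy l
          show ab (φ (yy l)) * (ab (yy l))⁻¹ ∈ YY g
          rw [this, mul_inv_cancel]
          exact one_mem _
      | inv_of p hp =>
        have := inv_mem hp
        rw [map_inv, map_inv, map_inv]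
        rwa [mul_inv_rev, mul_comm] at this
      | mul x y hx hy =>
        have := mul_mem hx hy
        rw [map_mul, map_mul, map_mul, mul_inv_rev]
        rw [mul_mul_mul_comm] at this
        rwa [mul_comm (ab y)⁻¹]
    exact key w

/-- commutators of such mapping classes are in the Torelli group -/
theorem uni_comm {φ ψ : MulAut (Surf g)} (hφ : φ ∈ Uni g) (hψ : ψ ∈ Uni g) :
    ⁅φ, ψ⁆ ∈ Torelli g := by
  obtain ⟨h1, h2, h3⟩ := hφ
  obtain ⟨h1', h2', h3'⟩ := hψ
  have key : ∀ w, ab (φ (ψ w)) = ab (ψ (φ w)) := by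
    intro w
    have e1 : ψ w = (ψ w * w⁻¹) * w := by group
    have e2 : φ w = (φ w * w⁻¹) * w := by group
    have m1 : ab (ψ w * w⁻¹) ∈ YY g := by
      rw [map_mul, map_inv]
      exact h3' w
    have m2 : ab (φ w * w⁻¹) ∈ YY g := by
      rw [map_mul, map_inv]
      exact h3 w
    calc ab (φ (ψ w)) = ab (φ (ψ w * w⁻¹)) * ab (φ w) := by
          conv_lhs => rw [e1]
          rw [map_mul, map_mul]
      _ = ab (ψ w * w⁻¹) * ab (φ w) := by rw [h2 _ m1]
      _ = ab (φ w * w⁻¹) * ab (ψ w) := by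
          rw [map_mul, map_mul, map_inv, mul_assoc, mul_assoc, mul_comm (ab (ψ w)),
            mul_comm (ab (φ w)), mul_assoc, mul_assoc, mul_comm (ab (φ w))]
      _ = ab (ψ (φ w * w⁻¹)) * ab (ψ w) := by rw [h2' _ m2]
      _ = ab (ψ (φ w)) := by
          conv_rhs => rw [e2, map_mul, map_mul]
  refine ⟨?_, fun z => ?_⟩
  · rw [commutatorElement_def]
    exact mul_mem (mul_mem (mul_mem h1 h1') (inv_mem h1)) (inv_mem h1')
  · rw [← Abelianization.ker_of, MonoidHom.mem_ker, map_mul, map_inv, mul_inv_eq_one]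
    have e : ⁅φ, ψ⁆ z = φ (ψ (φ⁻¹ (ψ⁻¹ z))) := rfl
    rw [e]
    have h4 := key (φ⁻¹ (ψ⁻¹ z))
    have e1 : φ (φ⁻¹ (ψ⁻¹ z)) = ψ⁻¹ z := MulEquiv.apply_symm_apply φ _
    have e2 : ψ (ψ⁻¹ z) = z := MulEquiv.apply_symm_apply ψ _
    rw [e1, e2] at h4
    exact h4

end

/-! ### the group of pairs -/

section
variable {g k : ℕ} {Q : Type} [Group Q]

/-- the extension by `1` -/
noncomputable def ex (C : Fin k → Fin g) (κ : Fin k → Q) : Fin g → Q := extend C κ 1

theorem ex_mul (C : Fin k → Fin g) (κ κ' : Fin k → Q) : ex C (κ * κ') = ex C κ * ex C κ' := by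
  unfold ex
  have := extend_mul C κ κ' (1 : Fin g → Q) 1
  rwa [mul_one] at this

theorem ex_inv (C : Fin k → Fin g) (κ : Fin k → Q) : ex C κ⁻¹ = (ex C κ)⁻¹ := by
  unfold ex
  have := extend_inv C κ (1 : Fin g → Q)
  rwa [inv_one] at this

theorem ex_one (C : Fin k → Fin g) : ex C (1 : Fin k → Q) = 1 := by
  unfold ex
  exact extend_one C

theorem ex_apply {C : Fin k → Fin g} (hC : Injective C) (κ : Fin k → Q) (i : Fin k) :
    ex C κ (C i) = κ i := hC.extend_apply _ _ _

theorem ex_other {C : Fin k → Fin g} (κ : Fin k → Q) {l : Fin g} (hl : ∀ i, C i ≠ l) :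
    ex C κ l = 1 := extend_apply' _ _ _ (by rintro ⟨i, hi⟩; exact hl i hi)

theorem good_ex {C : Fin k → Fin g} {e : Fin g → Q} (he : ∀ i, e (C i) = 1)
    (κ : Fin k → Q) {X : Fin g → Q} (h : Good X e) : Good (ex C κ * X) e := by
  intro l
  by_cases hl : ∃ i, C i = l
  · obtain ⟨i, rfl⟩ := hl
    rw [he]
    exact Commute.one_right _
  · rw [Pi.mul_apply, ex_other κ fun i hi => hl ⟨i, hi⟩, one_mul]
    exact h l

/-- the pairs `(φ, κ)` such that `φ` acts by multiplication of the values of `x_{C i}` by `κ_i⁻¹` -/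
noncomputable def PP {C : Fin k → Fin g} (_hC : Injective C) {e : Fin g → Q}
    (he : ∀ i, e (C i) = 1) : Subgroup (MulAut (Surf g) × (Fin k → Q)) where
  carrier := {p | ∀ X : Fin g → Q, Good X e →
    (HH X e).comp p.1.toMonoidHom = HH ((ex C p.2)⁻¹ * X) e}
  mul_mem' := by
    rintro ⟨φ, κ⟩ ⟨φ', κ'⟩ h h' X hX
    have h1 : (HH X e).comp φ.toMonoidHom = HH ((ex C κ)⁻¹ * X) e := h X hX
    show (HH X e).comp (φ * φ').toMonoidHom = HH ((ex C (κ * κ'))⁻¹ * X) e
    rw [comp_mul, h1]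
    have hX' : Good ((ex C κ)⁻¹ * X) e := by
      rw [← ex_inv]
      exact good_ex he _ hX
    have h2 : (HH ((ex C κ)⁻¹ * X) e).comp φ'.toMonoidHom =
        HH ((ex C κ')⁻¹ * ((ex C κ)⁻¹ * X)) e := h' _ hX'
    rw [h2, ex_mul, mul_inv_rev, mul_assoc]
  one_mem' := by
    intro X _
    show HH X e = HH ((ex C (1 : Fin k → Q))⁻¹ * X) e
    rw [ex_one, inv_one, one_mul]
  inv_mem' := by
    rintro ⟨φ, κ⟩ h X hX
    show (HH X e).comp (φ⁻¹).toMonoidHom = HH ((ex C κ⁻¹)⁻¹ * X) e
    rw [ex_inv, inv_inv]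
    refine comp_inv_cancel ?_
    have h1 : (HH (ex C κ * X) e).comp φ.toMonoidHom = HH ((ex C κ)⁻¹ * (ex C κ * X)) e :=
      h _ (good_ex he _ hX)
    rw [h1, inv_mul_cancel_left]

/-- the pushes -/
theorem push_mem {C : Fin k → Fin g} (hC : Injective C) {e : Fin g → Q} (he : ∀ i, e (C i) = 1)
    {a : Fin g} (i : Fin k) (ha : a ≠ C i) :
    ∃ φ ∈ Uni g, (φ, (Pi.mulSingle i (e a) : Fin k → Q)) ∈ PP hC he := by
  obtain ⟨p, hp, h1, h2⟩ := exists_push ha
  refine ⟨p⁻¹, inv_mem ?_, ?_⟩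
  · refine uni_of hp ?_ ?_ (X := update (update (fun l => ab (xx l)) a
      (ab (yy (C i)) * ab (xx a))) (C i) (ab (yy a) * ab (xx (C i))))
    · have h3 := h2 (Abelianization (Surf g)) (fun l => ab (xx l)) fun l => ab (yy l)
      rw [← h3]
      congr 1
      exact HH_ext (fun l => rfl) fun l => rfl
    · intro l
      by_cases hl : l = C i
      · subst hl
        rw [update_self, mul_inv_cancel_right]
        exact Subgroup.subset_closure ⟨a, rfl⟩
      · rw [update_of_ne hl]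
        by_cases hl' : l = a
        · subst hl'
          rw [update_self, mul_inv_cancel_right]
          exact Subgroup.subset_closure ⟨C i, rfl⟩
        · rw [update_of_ne hl', mul_inv_cancel]
          exact one_mem _
  · have h3 : (p, (Pi.mulSingle i (e a)⁻¹ : Fin k → Q)) ∈ PP hC he := by
      intro X hX
      show (HH X e).comp p.toMonoidHom = HH ((ex C (Pi.mulSingle i (e a)⁻¹))⁻¹ * X) e
      rw [h1 Q X e hX (he i)]
      congr 1
      funext l
      rw [← ex_inv, Pi.mul_apply]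
      by_cases hl : ∃ m, C m = l
      · obtain ⟨m, rfl⟩ := hl
        rw [ex_apply hC, Pi.inv_apply]
        by_cases hm : m = i
        · subst hm
          rw [Pi.mulSingle_eq_same, inv_inv, update_self]
        · rw [Pi.mulSingle_eq_of_ne hm, inv_one, one_mul, update_of_ne fun h => hm (hC h)]
      · rw [ex_other _ fun m hm => hl ⟨m, hm⟩, one_mul, update_of_ne fun h => hl ⟨i, h.symm⟩]
    have h4 := inv_mem h3
    have e1 : (p, (Pi.mulSingle i (e a)⁻¹ : Fin k → Q))⁻¹ =
        (p⁻¹, (Pi.mulSingle i (e a) : Fin k → Q)) := by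
      rw [Prod.inv_mk]
      congr 1
      rw [← Pi.mulSingle_inv, inv_inv]
    rwa [e1] at h4

theorem comm_pi (hQ : commutator Q = ⊤) : commutator (Fin k → Q) = ⊤ := by
  have h := Subgroup.commutator_pi_pi_of_finite (Gs := fun _ : Fin k => Q) (fun _ => ⊤) fun _ => ⊤
  rw [Subgroup.pi_top] at h
  rw [commutator_def, h]
  have : (fun _ : Fin k => ⁅(⊤ : Subgroup Q), (⊤ : Subgroup Q)⁆) = fun _ => (⊤ : Subgroup Q) := by
    funext i
    exact hQ
  rw [this, Subgroup.pi_top]

/-- **Every element of `Q ^ k` is realised by an element of the Torelli group.** -/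
theorem exists_torelli {C : Fin k → Fin g} (hC : Injective C) {e : Fin g → Q}
    (he : ∀ i, e (C i) = 1) {A : Fin k → Fin g} (hA : ∀ i j, A i ≠ C j)
    (hgen : Subgroup.closure (Set.range fun i => e (A i)) = ⊤) (hQ : commutator Q = ⊤)
    (κ : Fin k → Q) : ∃ φ ∈ Torelli g, (φ, κ) ∈ PP hC he := by
  classical
  -- first step
  have h1 : ∀ κ : Fin k → Q, ∃ φ ∈ Uni g, (φ, κ) ∈ PP hC he := by
    let J : Subgroup (Fin k → Q) :=
      ((PP hC he) ⊓ (Uni g).prod ⊤).map (MonoidHom.snd (MulAut (Surf g)) (Fin k → Q))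
    have hJ : ∀ κ, κ ∈ J ↔ ∃ φ ∈ Uni g, (φ, κ) ∈ PP hC he := by
      intro κ
      constructor
      · rintro ⟨⟨φ, κ'⟩, ⟨h2, h3⟩, rfl⟩
        exact ⟨φ, h3.1, h2⟩
      · rintro ⟨φ, h2, h3⟩
        exact ⟨(φ, κ), ⟨h3, h2, Subgroup.mem_top _⟩, rfl⟩
    have hT : (⊤ : Subgroup (Fin k → Q)) ≤ J := by
      have h2 := (Subgroup.pi_le_iff (H := fun _ : Fin k => (⊤ : Subgroup Q)) (J := J)).2 ?_
      · rwa [Subgroup.pi_top] at h2
      · intro i
        rw [Subgroup.map_le_iff_le_comap, ← hgen, Subgroup.closure_le]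
        rintro _ ⟨j, rfl⟩
        show MonoidHom.mulSingle _ i (e (A j)) ∈ J
        rw [hJ]
        exact push_mem hC he i (hA j i)
    exact fun κ => (hJ κ).1 (hT (Subgroup.mem_top κ))
  let J' : Subgroup (Fin k → Q) :=
    ((PP hC he) ⊓ (Torelli g).prod ⊤).map (MonoidHom.snd (MulAut (Surf g)) (Fin k → Q))
  have hJ' : ∀ κ, κ ∈ J' ↔ ∃ φ ∈ Torelli g, (φ, κ) ∈ PP hC he := by
    intro κ
    constructor
    · rintro ⟨⟨φ, κ'⟩, ⟨h2, h3⟩, rfl⟩
      exact ⟨φ, h3.1, h2⟩
    · rintro ⟨φ, h2, h3⟩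
      exact ⟨(φ, κ), ⟨h3, h2, Subgroup.mem_top _⟩, rfl⟩
  rw [← hJ']
  have h2 : commutator (Fin k → Q) ≤ J' := by
    rw [commutator_eq_closure, Subgroup.closure_le]
    rintro _ ⟨a, b, rfl⟩
    obtain ⟨φ, h3, h4⟩ := h1 a
    obtain ⟨ψ, h5, h6⟩ := h1 b
    refine (hJ' _).2 ⟨⁅φ, ψ⁆, uni_comm h3 h5, ?_⟩
    have h7 := mul_mem (mul_mem (mul_mem h4 h6) (inv_mem h4)) (inv_mem h6)
    rw [commutatorElement_def, commutatorElement_def]
    exact h7
  rw [comm_pi hQ] at h2
  exact h2 (Subgroup.mem_top κ)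

end

end Pool.Agent.N518.HQ
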