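import Pool.Agent.N518.HQ.Surf

/-!
# Mapping classes supported on two handles, in a surface of genus `g`
-/

set_option autoImplicit false

namespace Pool.Agent.N518.HQ

open Pool.Agent.N518.TG Function

section
variable {g : ℕ}

/-- two handles -/
def emb (i j : Fin g) : Surf 2 →* Surf g := HH ![xx i, xx j] ![yy i, yy j]

/-- the homomorphism on the handles `i, j` -/
def imp (i j : Fin g) (θ : Surf 2 →* Surf 2) : Surf g →* Surf g :=
  HH (update (update xx i (emb i j (θ (xx 0)))) j (emb i j (θ (xx 1))))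
    (update (update yy i (emb i j (θ (yy 0)))) j (emb i j (θ (yy 1))))

theorem imp_emb {i j : Fin g} (h : i ≠ j) (θ : Surf 2 →* Surf 2) :
    (imp i j θ).comp (emb i j) = (emb i j).comp θ := by
  apply two_ext
  · simp [imp, emb, h]
  · simp [imp, emb]
  · simp [imp, emb, h]
  · simp [imp, emb]

theorem imp_x {i j : Fin g} (θ : Surf 2 →* Surf 2) {l : Fin g} (hi : l ≠ i) (hj : l ≠ j) :
    imp i j θ (xx l) = xx l := by
  simp [imp, hi, hj]

theorem imp_y {i j : Fin g} (θ : Surf 2 →* Surf 2) {l : Fin g} (hi : l ≠ i) (hj : l ≠ j) :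
    imp i j θ (yy l) = yy l := by
  simp [imp, hi, hj]

/-- homomorphisms on the surface of genus `g` agree if they agree on the two handles and on the
others -/
theorem imp_ext {G : Type} [Group G] {i j : Fin g} {f f' : Surf g →* G}
    (h : f.comp (emb i j) = f'.comp (emb i j)) (hx : ∀ l, l ≠ i → l ≠ j → f (xx l) = f' (xx l))
    (hy : ∀ l, l ≠ i → l ≠ j → f (yy l) = f' (yy l)) : f = f' := by
  refine hom_ext (fun l => ?_) fun l => ?_
  · by_cases hi : l = i
    · subst hi
      have := DFunLike.congr_fun h (xx 0)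
      simpa [emb] using this
    · by_cases hj : l = j
      · subst hj
        have := DFunLike.congr_fun h (xx 1)
        simpa [emb] using this
      · exact hx l hi hj
  · by_cases hi : l = i
    · subst hi
      have := DFunLike.congr_fun h (yy 0)
      simpa [emb] using this
    · by_cases hj : l = j
      · subst hj
        have := DFunLike.congr_fun h (yy 1)
        simpa [emb] using this
      · exact hy l hi hj

theorem imp_comp {i j : Fin g} (h : i ≠ j) (θ θ' : Surf 2 →* Surf 2) :
    (imp i j θ).comp (imp i j θ') = imp i j (θ.comp θ') := by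
  refine imp_ext (i := i) (j := j) ?_ (fun l hi hj => ?_) fun l hi hj => ?_
  · rw [MonoidHom.comp_assoc, imp_emb h, ← MonoidHom.comp_assoc, imp_emb h, imp_emb h,
      MonoidHom.comp_assoc]
  · rw [MonoidHom.comp_apply, imp_x _ hi hj, imp_x _ hi hj, imp_x _ hi hj]
  · rw [MonoidHom.comp_apply, imp_y _ hi hj, imp_y _ hi hj, imp_y _ hi hj]

theorem imp_id {i j : Fin g} (h : i ≠ j) : imp i j (MonoidHom.id _) = MonoidHom.id _ := by
  refine imp_ext (i := i) (j := j) ?_ (fun l hi hj => ?_) fun l hi hj => ?_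
  · rw [imp_emb h, MonoidHom.comp_id, MonoidHom.id_comp]
  · rw [imp_x _ hi hj, MonoidHom.id_apply]
  · rw [imp_y _ hi hj, MonoidHom.id_apply]

/-- a mapping class of the surface of genus two, on the handles `i, j` -/
def im {i j : Fin g} (h : i ≠ j) (θ : MulAut (Surf 2)) : MulAut (Surf g) :=
  (imp i j θ.toMonoidHom).toMulEquiv (imp i j (θ⁻¹).toMonoidHom)
    (by
      rw [imp_comp h, ← imp_id h]
      congr 1
      exact MonoidHom.ext fun z => MulEquiv.symm_apply_apply θ z)
    (by
      rw [imp_comp h, ← imp_id h]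
      congr 1
      exact MonoidHom.ext fun z => MulEquiv.apply_symm_apply θ z)

theorem im_apply {i j : Fin g} (h : i ≠ j) (θ : MulAut (Surf 2)) (z : Surf g) :
    im h θ z = imp i j θ.toMonoidHom z := rfl

theorem im_hom {i j : Fin g} (h : i ≠ j) (θ : MulAut (Surf 2)) :
    (im h θ).toMonoidHom = imp i j θ.toMonoidHom := rfl

theorem im_inv {i j : Fin g} (h : i ≠ j) (θ : MulAut (Surf 2)) : (im h θ)⁻¹ = im h θ⁻¹ := by
  ext z
  rfl

/-- the effect on homomorphisms -/
theorem comp_im {G : Type} [Group G] {i j : Fin g} (h : i ≠ j) (θ : MulAut (Surf 2))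
    {X e : Fin g → G} {a b c d : G}
    (hθ : (HH ![X i, X j] ![e i, e j]).comp θ.toMonoidHom = HH ![a, b] ![c, d]) :
    (HH X e).comp (im h θ).toMonoidHom =
      HH (update (update X i a) j b) (update (update e i c) j d) := by
  have e1 : (HH X e).comp (emb i j) = HH ![X i, X j] ![e i, e j] := by
    apply two_ext <;> simp [emb]
  refine imp_ext (i := i) (j := j) ?_ (fun l hi hj => ?_) fun l hi hj => ?_
  · rw [im_hom, MonoidHom.comp_assoc, imp_emb h, ← MonoidHom.comp_assoc, e1, hθ]
    apply two_ext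
    · simp [emb, h]
    · simp [emb]
    · simp [emb, h]
    · simp [emb]
  · rw [MonoidHom.comp_apply, im_hom, imp_x _ hi hj, HH_x, HH_x, update_of_ne hj, update_of_ne hi]
  · rw [MonoidHom.comp_apply, im_hom, imp_y _ hi hj, HH_y, HH_y, update_of_ne hj, update_of_ne hi]

end

/-! ### the boundary -/

theorem prod_adj {G : Type} [Group G] : ∀ {n : ℕ} (f f' : Fin (n + 1) → G) (i : Fin n),
    (∀ l, l ≠ i.castSucc → l ≠ i.succ → f l = f' l) →
    f i.castSucc * f i.succ = f' i.castSucc * f' i.succ → (List.ofFn f).prod = (List.ofFn f').prod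
  | 0, _, _, i, _, _ => i.elim0
  | n + 1, f, f', i, h, h' => by
    rw [List.ofFn_succ, List.ofFn_succ (f := f'), List.prod_cons, List.prod_cons]
    refine Fin.cases (fun h h' => ?_) (fun i h h' => ?_) i h h'
    · rw [List.ofFn_succ, List.ofFn_succ (f := fun l => f' l.succ), List.prod_cons, List.prod_cons,
        ← mul_assoc, ← mul_assoc]
      have h1 : f 0 * f (Fin.succ 0) = f' 0 * f' (Fin.succ 0) := h'
      rw [h1]
      congr 2
      congr 1
      funext l
      refine h _ ?_ ?_
      · exact Fin.succ_ne_zero _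
      · intro h2
        exact Fin.succ_ne_zero _ (Fin.succ_injective _ h2)
    · have h1 : f 0 = f' 0 := by
        refine h 0 ?_ ?_
        · rw [Fin.castSucc_succ]
          exact (Fin.succ_ne_zero _).symm
        · exact (Fin.succ_ne_zero _).symm
      rw [h1]
      congr 1
      refine prod_adj (fun l => f l.succ) (fun l => f' l.succ) i (fun l hl hl' => ?_) ?_
      · refine h _ ?_ ?_
        · rw [Fin.castSucc_succ]
          exact fun h2 => hl (Fin.succ_injective _ h2)
        · exact fun h2 => hl' (Fin.succ_injective _ h2)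
      · rw [Fin.castSucc_succ] at h'
        exact h'

theorem adj_ne {n : ℕ} (i : Fin n) : i.castSucc ≠ i.succ := Fin.castSucc_lt_succ.ne

theorem im_mem {n : ℕ} (i : Fin n) {θ : MulAut (Surf 2)} (hθ : θ ∈ TG.Mod 2) :
    im (adj_ne i) θ ∈ TG.Mod (n + 1) := by
  have hθ' : θ (bdry 2) = bdry 2 := hθ
  show im (adj_ne i) θ (bdry (n + 1)) = bdry (n + 1)
  rw [im_apply]
  unfold bdry
  rw [map_list_prod, List.map_ofFn]
  have e0 : ∀ z, imp i.castSucc i.succ θ.toMonoidHom (emb i.castSucc i.succ z) =
      emb i.castSucc i.succ (θ z) := fun z => DFunLike.congr_fun (imp_emb (adj_ne i) θ.toMonoidHom) z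
  refine prod_adj _ _ i (fun l hl hl' => ?_) ?_
  · simp only [comp_apply, map_mul, map_inv, imp_x _ hl hl', imp_y _ hl hl']
  · have e1 : xx i.castSucc * yy i.castSucc * (xx i.castSucc)⁻¹ * (yy i.castSucc)⁻¹ *
        (xx i.succ * yy i.succ * (xx i.succ)⁻¹ * (yy i.succ)⁻¹) =
        emb i.castSucc i.succ (bdry 2) := by
      rw [bdry_two]
      simp [emb]
    show imp i.castSucc i.succ θ.toMonoidHom _ * imp i.castSucc i.succ θ.toMonoidHom _ = _
    rw [← map_mul, e1, e0, hθ']

end Pool.Agent.N518.HQ
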