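import Pool.Agent.N518.HQ.Grp

/-!
# Fundamental groups
-/

set_option autoImplicit false

open scoped commutatorElement

namespace Pool.Agent.N518.HQ

open Pool.Agent.N518.TG Function

/-- The curves on the Heegaard surface which bound discs in one of the two handlebodies. -/
def rels (P : Heegaard) : Set (Surf P.1) := Set.range xx ∪ Set.range fun i => P.2 (yy i)

/-- The fundamental group of the closed 3-manifold `M(φ)` (theorem of Seifert and van Kampen): the
fundamental group of the Heegaard surface modulo the curves `x_i` and `φ(y_i)`. -/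
abbrev Pi1 (P : Heegaard) : Type := Surf P.1 ⧸ Subgroup.normalClosure (rels P)

theorem ncl_map {G : Type} [Group G] (a : MulAut G) (s : Set G) :
    (Subgroup.normalClosure s).map a.toMonoidHom = Subgroup.normalClosure (a '' s) := by
  rw [Subgroup.map_normalClosure s a.toMonoidHom a.surjective]
  rfl

theorem pi1_step {P P' : Heegaard} (h : Step P P') : Nonempty (Pi1 P ≃* Pi1 P') := by
  cases h with
  | ext g φ a b hφ ha hb =>
    refine ⟨QuotientGroup.congr _ _ a ?_⟩
    have h1 : (Subgroup.normalClosure (rels ⟨g, φ⟩)).map a.toMonoidHom =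
        Subgroup.normalClosure (rels ⟨g, a * φ * b⟩) := by
      apply le_antisymm
      · rw [ncl_map]
        refine Subgroup.normalClosure_le_normal ?_
        rintro _ ⟨z, hz | ⟨i, rfl⟩, rfl⟩
        · have h2 : a z ∈ Subgroup.normalClosure (Set.range (xx (g := g))) := by
            rw [← ha.2]
            exact Subgroup.mem_map_of_mem a.toMonoidHom (Subgroup.subset_normalClosure hz)
          exact Subgroup.normalClosure_mono Set.subset_union_left h2
        · have h2 : yy i ∈ (Subgroup.normalClosure (Set.range (yy (g := g)))).map b.toMonoidHom := by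
            rw [hb.2]
            exact Subgroup.subset_normalClosure ⟨i, rfl⟩
          obtain ⟨z, hz, hz'⟩ := h2
          have h3 : (a * φ * b) z ∈ Subgroup.normalClosure ((a * φ * b) '' Set.range (yy (g := g))) := by
            rw [← ncl_map]
            exact Subgroup.mem_map_of_mem _ hz
          have h4 : Subgroup.normalClosure ((a * φ * b) '' Set.range (yy (g := g))) ≤
              Subgroup.normalClosure (rels ⟨g, a * φ * b⟩) := by
            refine Subgroup.normalClosure_mono ?_
            rintro _ ⟨_, ⟨i, rfl⟩, rfl⟩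
            exact Or.inr ⟨i, rfl⟩
          have h5 : (a * φ * b) z = a (φ (yy i)) := by
            rw [← hz']
            rfl
          show a (φ (yy i)) ∈ _
          rw [← h5]
          exact h4 h3
      · have : ((Subgroup.normalClosure (rels ⟨g, φ⟩)).map a.toMonoidHom).Normal :=
          Subgroup.normalClosure_normal.map _ a.surjective
        refine Subgroup.normalClosure_le_normal ?_
        rintro _ (⟨i, rfl⟩ | ⟨i, rfl⟩)
        · have h2 : xx i ∈ (Subgroup.normalClosure (Set.range (xx (g := g)))).map a.toMonoidHom := by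
            rw [ha.2]
            exact Subgroup.subset_normalClosure ⟨i, rfl⟩
          exact Subgroup.map_mono (Subgroup.normalClosure_mono Set.subset_union_left) h2
        · have h2 : b (yy i) ∈ Subgroup.normalClosure (Set.range (yy (g := g))) := by
            rw [← hb.2]
            exact Subgroup.mem_map_of_mem b.toMonoidHom (Subgroup.subset_normalClosure ⟨i, rfl⟩)
          have h3 : φ (b (yy i)) ∈ Subgroup.normalClosure (φ '' Set.range (yy (g := g))) := by
            rw [← ncl_map]
            exact Subgroup.mem_map_of_mem _ h2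
          have h4 : Subgroup.normalClosure (φ '' Set.range (yy (g := g))) ≤
              Subgroup.normalClosure (rels ⟨g, φ⟩) := by
            refine Subgroup.normalClosure_mono ?_
            rintro _ ⟨_, ⟨i, rfl⟩, rfl⟩
            exact Or.inr ⟨i, rfl⟩
          exact Subgroup.mem_map_of_mem a.toMonoidHom (h4 h3)
    exact h1
  | stab g φ φ' hφ h =>
    obtain ⟨h1, h2, h3⟩ := h
    have hix : ∀ i : Fin g, incl g (xx i) = xx i.castSucc := fun i => by
      unfold incl xx
      rw [FreeGroup.map.of]
    have hiy : ∀ i : Fin g, incl g (yy i) = yy i.castSucc := fun i => by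
      unfold incl yy
      rw [FreeGroup.map.of]
    let r : Surf (g + 1) →* Surf g :=
      HH (Fin.snoc (α := fun _ => Surf g) xx 1) (Fin.snoc (α := fun _ => Surf g) yy 1)
    have hrx : ∀ i : Fin g, r (xx i.castSucc) = xx i := fun i => by
      simp only [r, HH_x, Fin.snoc_castSucc]
    have hry : ∀ i : Fin g, r (yy i.castSucc) = yy i := fun i => by
      simp only [r, HH_y, Fin.snoc_castSucc]
    have hrx' : r (xx (Fin.last g)) = 1 := by simp only [r, HH_x, Fin.snoc_last]
    have hry' : r (yy (Fin.last g)) = 1 := by simp only [r, HH_y, Fin.snoc_last]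
    have hri : ∀ z, r (incl g z) = z := by
      intro z
      have : r.comp (incl g) = MonoidHom.id _ := by
        refine hom_ext (fun i => ?_) fun i => ?_
        · rw [MonoidHom.comp_apply, hix, hrx, MonoidHom.id_apply]
        · rw [MonoidHom.comp_apply, hiy, hry, MonoidHom.id_apply]
      exact DFunLike.congr_fun this z
    have k1 : Subgroup.normalClosure (rels ⟨g, φ⟩) ≤
        (Subgroup.normalClosure (rels ⟨g + 1, φ'⟩)).comap (incl g) := by
      refine Subgroup.normalClosure_le_normal ?_
      rintro _ (⟨i, rfl⟩ | ⟨i, rfl⟩)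
      · show incl g (xx i) ∈ Subgroup.normalClosure (rels ⟨g + 1, φ'⟩)
        rw [hix]
        exact Subgroup.subset_normalClosure (Or.inl ⟨_, rfl⟩)
      · show incl g (φ (yy i)) ∈ Subgroup.normalClosure (rels ⟨g + 1, φ'⟩)
        rw [← h1, hiy]
        exact Subgroup.subset_normalClosure (Or.inr ⟨_, rfl⟩)
    have k2 : Subgroup.normalClosure (rels ⟨g + 1, φ'⟩) ≤
        (Subgroup.normalClosure (rels ⟨g, φ⟩)).comap r := by
      refine Subgroup.normalClosure_le_normal ?_
      rintro _ (⟨i, rfl⟩ | ⟨i, rfl⟩)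
      · show r (xx i) ∈ Subgroup.normalClosure (rels ⟨g, φ⟩)
        refine Fin.lastCases ?_ (fun i => ?_) i
        · rw [hrx']; exact one_mem _
        · rw [hrx]; exact Subgroup.subset_normalClosure (Or.inl ⟨_, rfl⟩)
      · show r (φ' (yy i)) ∈ Subgroup.normalClosure (rels ⟨g, φ⟩)
        refine Fin.lastCases ?_ (fun i => ?_) i
        · rw [h3, hry']; exact one_mem _
        · rw [← hiy, h1, hri]
          exact Subgroup.subset_normalClosure (Or.inr ⟨_, rfl⟩)
    refine ⟨MonoidHom.toMulEquiv (QuotientGroup.map _ _ (incl g) k1) (QuotientGroup.map _ _ r k2)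
      ?_ ?_⟩
    · refine QuotientGroup.monoidHom_ext _ (MonoidHom.ext fun z => ?_)
      show ((r (incl g z) : Surf g) : Pi1 ⟨g, φ⟩) = (z : Pi1 ⟨g, φ⟩)
      rw [hri]
    · refine QuotientGroup.monoidHom_ext _ (hom_ext (fun i => ?_) fun i => ?_)
      · show ((incl g (r (xx i)) : Surf (g + 1)) : Pi1 ⟨g + 1, φ'⟩) =
          (xx i : Surf (g + 1))
        refine Fin.lastCases ?_ (fun i => ?_) i
        · rw [hrx', map_one]
          symm
          rw [QuotientGroup.mk_one, QuotientGroup.eq_one_iff]
          exact Subgroup.subset_normalClosure (Or.inl ⟨_, rfl⟩)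
        · rw [hrx, hix]
      · show ((incl g (r (yy i)) : Surf (g + 1)) : Pi1 ⟨g + 1, φ'⟩) =
          (yy i : Surf (g + 1))
        refine Fin.lastCases ?_ (fun i => ?_) i
        · rw [hry', map_one]
          symm
          rw [QuotientGroup.mk_one, QuotientGroup.eq_one_iff]
          exact Subgroup.subset_normalClosure (Or.inr ⟨Fin.last g, h3⟩)
        · rw [hry, hiy]

/-- **The fundamental group is an invariant.** -/
theorem pi1_homeo {P P' : Heegaard} (h : Homeo P P') : Nonempty (Pi1 P ≃* Pi1 P') := by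
  induction h with
  | rel x y h => exact pi1_step h
  | refl x => exact ⟨MulEquiv.refl _⟩
  | symm x y _ ih => exact ih.map MulEquiv.symm
  | trans x y z _ _ ih ih' =>
    obtain ⟨e⟩ := ih
    obtain ⟨e'⟩ := ih'
    exact ⟨e.trans e'⟩

/-- epimorphisms of the fundamental group -/
theorem exists_epi {P : Heegaard} {Q : Type} [Group Q] (ρ : Surf P.1 →* Q) (hρ : Surjective ρ)
    (hx : ∀ i, ρ (xx i) = 1) (hy : ∀ i, ρ (P.2 (yy i)) = 1) :
    ∃ f : Pi1 P →* Q, Surjective f := by
  have h : Subgroup.normalClosure (rels P) ≤ ρ.ker := by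
    refine Subgroup.normalClosure_le_normal ?_
    rintro _ (⟨i, rfl⟩ | ⟨i, rfl⟩)
    · exact hx i
    · exact hy i
  refine ⟨QuotientGroup.lift _ ρ h, fun q => ?_⟩
  obtain ⟨z, rfl⟩ := hρ q
  exact ⟨z, rfl⟩

/-! ### stabilisation -/

theorem incl_xx {g : ℕ} (i : Fin g) : incl g (xx i) = xx i.castSucc := by
  unfold incl xx
  rw [FreeGroup.map.of]

theorem incl_yy {g : ℕ} (i : Fin g) : incl g (yy i) = yy i.castSucc := by
  unfold incl yy
  rw [FreeGroup.map.of]

/-- the extension by the identity, as a homomorphism -/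
def stH {g : ℕ} (f : Surf g →* Surf g) : Surf (g + 1) →* Surf (g + 1) :=
  HH (Fin.snoc (α := fun _ => Surf (g + 1)) (fun i => incl g (f (xx i))) (xx (Fin.last g)))
    (Fin.snoc (α := fun _ => Surf (g + 1)) (fun i => incl g (f (yy i))) (yy (Fin.last g)))

theorem stH_incl {g : ℕ} (f : Surf g →* Surf g) (z : Surf g) :
    stH f (incl g z) = incl g (f z) := by
  have : (stH f).comp (incl g) = (incl g).comp f := by
    refine hom_ext (fun i => ?_) fun i => ?_
    · rw [MonoidHom.comp_apply, MonoidHom.comp_apply, incl_xx, stH, HH_x, Fin.snoc_castSucc]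
    · rw [MonoidHom.comp_apply, MonoidHom.comp_apply, incl_yy, stH, HH_y, Fin.snoc_castSucc]
  exact DFunLike.congr_fun this z

theorem stH_x {g : ℕ} (f : Surf g →* Surf g) : stH f (xx (Fin.last g)) = xx (Fin.last g) := by
  rw [stH, HH_x, Fin.snoc_last]

theorem stH_y {g : ℕ} (f : Surf g →* Surf g) : stH f (yy (Fin.last g)) = yy (Fin.last g) := by
  rw [stH, HH_y, Fin.snoc_last]

/-- homomorphisms on the surface with one more handle -/
theorem snoc_ext {g : ℕ} {G : Type} [Group G] {f f' : Surf (g + 1) →* G}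
    (h : ∀ z, f (incl g z) = f' (incl g z)) (hx : f (xx (Fin.last g)) = f' (xx (Fin.last g)))
    (hy : f (yy (Fin.last g)) = f' (yy (Fin.last g))) : f = f' := by
  refine hom_ext (fun i => ?_) fun i => ?_
  · refine Fin.lastCases hx (fun i => ?_) i
    have := h (xx i)
    rwa [incl_xx] at this
  · refine Fin.lastCases hy (fun i => ?_) i
    have := h (yy i)
    rwa [incl_yy] at this

/-- the extension by the identity -/
def st {g : ℕ} (φ : MulAut (Surf g)) : MulAut (Surf (g + 1)) :=
  (stH φ.toMonoidHom).toMulEquiv (stH (φ⁻¹).toMonoidHom)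
    (by
      refine snoc_ext (fun z => ?_) ?_ ?_
      · rw [MonoidHom.comp_apply, stH_incl, stH_incl, MonoidHom.id_apply]
        exact congrArg (incl g) (MulEquiv.symm_apply_apply φ z)
      · rw [MonoidHom.comp_apply, stH_x, stH_x, MonoidHom.id_apply]
      · rw [MonoidHom.comp_apply, stH_y, stH_y, MonoidHom.id_apply])
    (by
      refine snoc_ext (fun z => ?_) ?_ ?_
      · rw [MonoidHom.comp_apply, stH_incl, stH_incl, MonoidHom.id_apply]
        exact congrArg (incl g) (MulEquiv.apply_symm_apply φ z)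
      · rw [MonoidHom.comp_apply, stH_x, stH_x, MonoidHom.id_apply]
      · rw [MonoidHom.comp_apply, stH_y, stH_y, MonoidHom.id_apply])

theorem st_stab {g : ℕ} (φ : MulAut (Surf g)) : Stab φ (st φ) :=
  ⟨fun z => stH_incl _ z, stH_x _, stH_y _⟩

theorem bdry_succ (g : ℕ) : bdry (g + 1) = incl g (bdry g) * (xx (Fin.last g) *
    yy (Fin.last g) * (xx (Fin.last g))⁻¹ * (yy (Fin.last g))⁻¹) := by
  unfold bdry
  rw [List.ofFn_succ', List.concat_eq_append, List.prod_append, List.prod_singleton, map_list_prod,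
    List.map_ofFn]
  congr 3

theorem st_torelli {g : ℕ} {φ : MulAut (Surf g)} (h : φ ∈ Torelli g) : st φ ∈ Torelli (g + 1) := by
  obtain ⟨h1, h2⟩ := h
  refine ⟨?_, fun z => ?_⟩
  · have h1' : φ (bdry g) = bdry g := h1
    show stH φ.toMonoidHom (bdry (g + 1)) = bdry (g + 1)
    rw [bdry_succ, map_mul, map_mul, map_mul, map_mul, map_inv, map_inv, stH_incl, stH_x, stH_y]
    congr 2
  · rw [← Abelianization.ker_of, MonoidHom.mem_ker, map_mul, map_inv, mul_inv_eq_one]
    have key : (ab (g := g + 1)).comp (st φ).toMonoidHom = ab := by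
      refine snoc_ext (fun z => ?_) ?_ ?_
      · show ab (stH φ.toMonoidHom (incl g z)) = ab (incl g z)
        rw [stH_incl]
        have h3 := Abelianization.commutator_subset_ker ((ab (g := g + 1)).comp (incl g)) (h2 z)
        rw [MonoidHom.mem_ker, map_mul, map_inv, mul_inv_eq_one] at h3
        exact h3
      · show ab (stH φ.toMonoidHom _) = _
        rw [stH_x]
      · show ab (stH φ.toMonoidHom _) = _
        rw [stH_y]
    exact DFunLike.congr_fun key z

/-- **Iterated stabilisation.** -/
theorem exists_stab (g : ℕ) {φ : MulAut (Surf g)} (h : φ ∈ Torelli g) (m : ℕ) :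
    ∃ φ' ∈ Torelli (g + m), Homeo ⟨g, φ⟩ ⟨g + m, φ'⟩ ∧
      ∀ (Q : Type) [Group Q] (X e : Fin (g + m) → Q), (∀ l : Fin (g + m), l.1 < g → X l = 1) →
        (∀ l : Fin (g + m), l.1 < g → e l = 1) →
        (HH X e).comp φ'.toMonoidHom = HH X e := by
  induction m with
  | zero =>
    refine ⟨φ, h, Relation.EqvGen.refl _, fun Q _ X e hX he => ?_⟩
    have e1 : HH X e = 1 := hom_ext (fun i => by rw [HH_x, hX i i.2]; rfl)
      fun i => by rw [HH_y, he i i.2]; rfl
    rw [e1]
    rfl
  | succ m ih =>
    obtain ⟨φ', h1, h2, h3⟩ := ih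
    refine ⟨st φ', st_torelli h1, h2.trans _ _ _ (Relation.EqvGen.rel _ _
      (Step.stab _ _ _ h1.1 (st_stab φ'))), fun Q _ X e hX he => ?_⟩
    refine snoc_ext (g := g + m) (fun z => ?_) ?_ ?_
    · show HH X e (stH φ'.toMonoidHom (incl (g + m) z)) = HH X e (incl (g + m) z)
      rw [stH_incl]
      have e1 : (HH X e).comp (incl (g + m)) = HH (fun l => X l.castSucc) fun l => e l.castSucc :=
        HH_ext (fun i => by rw [MonoidHom.comp_apply, incl_xx, HH_x])
          fun i => by rw [MonoidHom.comp_apply, incl_yy, HH_y]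
      have e2 := h3 Q (fun l => X l.castSucc) (fun l => e l.castSucc) (fun l hl => hX _ hl)
        fun l hl => he _ hl
      have e4 : ∀ z, HH X e (incl (g + m) z) =
          HH (fun l : Fin (g + m) => X l.castSucc) (fun l => e l.castSucc) z :=
        fun z => DFunLike.congr_fun e1 z
      exact (e4 _).trans ((DFunLike.congr_fun e2 z).trans (e4 z).symm)
    · show HH X e (stH φ'.toMonoidHom _) = _
      rw [stH_x]
    · show HH X e (stH φ'.toMonoidHom _) = _
      rw [stH_y]

/-! ### finite type invariants -/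

theorem lcs_KK {H : Type} [Group H] {T : Subgroup H} [T.Normal] :
    ∀ (n : ℕ) {t : H}, t ∈ T.lowerCentralSeries n →
      (FreeAbelianGroup.of t - 1 : FreeAbelianGroup H) ∈ KK T (n + 1)
  | 0, t, ht => KK_one ht
  | n + 1, t, ht => by
    have e1 : (FreeAbelianGroup.of (1 : H)) = 1 := rfl
    let D : Subgroup H :=
      { carrier := {t | (FreeAbelianGroup.of t - 1 : FreeAbelianGroup H) ∈ KK T (n + 1 + 1)}
        mul_mem' := by
          intro a b ha hb
          show FreeAbelianGroup.of (a * b) - 1 ∈ KK T (n + 1 + 1)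
          have : (FreeAbelianGroup.of (a * b) - 1 : FreeAbelianGroup H) =
              (FreeAbelianGroup.of a - 1) * FreeAbelianGroup.of b + (FreeAbelianGroup.of b - 1) := by
            rw [FreeAbelianGroup.of_mul]
            noncomm_ring
          rw [this]
          exact add_mem (KK_mul (n := 0) ha (KK_zero _)) hb
        one_mem' := by
          show FreeAbelianGroup.of (1 : H) - 1 ∈ KK T (n + 1 + 1)
          rw [e1, sub_self]
          exact zero_mem _
        inv_mem' := by
          intro a ha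
          show FreeAbelianGroup.of a⁻¹ - 1 ∈ KK T (n + 1 + 1)
          have : (FreeAbelianGroup.of a⁻¹ - 1 : FreeAbelianGroup H) =
              -((FreeAbelianGroup.of a - 1) * FreeAbelianGroup.of a⁻¹) := by
            rw [sub_mul, ← FreeAbelianGroup.of_mul, mul_inv_cancel, e1, one_mul, neg_sub]
          rw [this]
          exact neg_mem (KK_mul (n := 0) ha (KK_zero _)) }
    have hD : ⁅T.lowerCentralSeries n, T⁆ ≤ D := by
      rw [Subgroup.commutator_le]
      intro a ha b hb
      show FreeAbelianGroup.of ⁅a, b⁆ - 1 ∈ KK T (n + 1 + 1)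
      have h1 := lcs_KK n ha
      have h2 : (FreeAbelianGroup.of b - 1 : FreeAbelianGroup H) ∈ KK T 1 := KK_one hb
      have h3 := KK_mul h1 h2
      have h4 := KK_mul h2 h1
      rw [add_comm 1 (n + 1)] at h4
      have h5 := KK_mul (n := 0) (sub_mem h3 h4)
        (KK_zero (FreeAbelianGroup.of a⁻¹ * FreeAbelianGroup.of b⁻¹))
      have e : (FreeAbelianGroup.of ⁅a, b⁆ - 1 : FreeAbelianGroup H) =
          ((FreeAbelianGroup.of a - 1) * (FreeAbelianGroup.of b - 1) -
            (FreeAbelianGroup.of b - 1) * (FreeAbelianGroup.of a - 1)) *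
            (FreeAbelianGroup.of a⁻¹ * FreeAbelianGroup.of b⁻¹) := by
        have e2 : ((FreeAbelianGroup.of a - 1) * (FreeAbelianGroup.of b - 1) -
            (FreeAbelianGroup.of b - 1) * (FreeAbelianGroup.of a - 1) : FreeAbelianGroup H) =
            FreeAbelianGroup.of (a * b) - FreeAbelianGroup.of (b * a) := by
          rw [FreeAbelianGroup.of_mul, FreeAbelianGroup.of_mul]
          noncomm_ring
        rw [e2, sub_mul, ← FreeAbelianGroup.of_mul, ← FreeAbelianGroup.of_mul,
          ← FreeAbelianGroup.of_mul, ← e1]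
        congr 2
        · rw [commutatorElement_def]; group
        · group
      rw [e]
      exact h5
    exact hD ht

theorem TT_map (g : ℕ) : (TT g).map (TG.Mod g).subtype = Torelli g := by
  ext φ
  constructor
  · rintro ⟨ψ, h, rfl⟩
    exact h
  · intro h
    exact ⟨⟨φ, h.1⟩, h, rfl⟩

/-- **Finite type invariants and the lower central series of the Torelli group.** -/
theorem ft_eq {A : Type} [AddCommGroup A] {n : ℕ} {v : Heegaard → A} (hv : FiniteType n v) {g : ℕ}
    {φ t : MulAut (Surf g)} (hφ : φ ∈ Torelli g) (ht : t ∈ (Torelli g).lowerCentralSeries n) :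
    v ⟨g, φ * t⟩ = v ⟨g, φ⟩ := by
  have ht' : t ∈ ((TT g).lowerCentralSeries n).map (TG.Mod g).subtype := by
    rw [Subgroup.map_lowerCentralSeries, TT_map]
    exact ht
  obtain ⟨τ, hτ, rfl⟩ := ht'
  have h1 := lcs_KK n hτ
  have h2 : (FreeAbelianGroup.of (⟨φ, hφ.1⟩ : TG.Mod g) * (FreeAbelianGroup.of τ - 1) :
      FreeAbelianGroup (TG.Mod g)) ∈ KK (TT g) (n + 1) := by
    have := KK_mul (m := 0) (KK_zero (T := TT g) (FreeAbelianGroup.of (⟨φ, hφ.1⟩ : TG.Mod g))) h1
    rwa [zero_add] at this
  have h3 := lin_KK (expl_fn hv g).dg h2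
  rw [mul_sub, mul_one, ← FreeAbelianGroup.of_mul, map_sub, lin_of, lin_of, sub_eq_zero] at h3
  have m1 : (⟨φ, hφ.1⟩ : TG.Mod g) ∈ TT g := hφ
  have m2 : (⟨φ, hφ.1⟩ : TG.Mod g) * τ ∈ TT g :=
    mul_mem m1 (Subgroup.lowerCentralSeries_antitone _ (Nat.zero_le n) hτ)
  rw [fn, fn, if_pos m1, if_pos m2] at h3
  exact h3

/-- the Torelli group is normalised by the mapping class group -/
theorem conj_lcs {g n : ℕ} {a t : MulAut (Surf g)} (ha : a ∈ TG.Mod g)
    (ht : t ∈ (Torelli g).lowerCentralSeries n) :
    a * t * a⁻¹ ∈ (Torelli g).lowerCentralSeries n := by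
  have h1 : (Torelli g).map (MulAut.conj a).toMonoidHom = Torelli g := by
    have key : ∀ {b τ : MulAut (Surf g)}, b ∈ TG.Mod g → τ ∈ Torelli g → b * τ * b⁻¹ ∈ Torelli g := by
      intro b τ hb hτ
      exact (normal_TT g).conj_mem ⟨τ, hτ.1⟩ hτ ⟨b, hb⟩
    apply le_antisymm
    · rintro _ ⟨τ, hτ, rfl⟩
      exact key ha hτ
    · intro τ hτ
      refine ⟨a⁻¹ * τ * a⁻¹⁻¹, key (inv_mem ha) hτ, ?_⟩
      show a * (a⁻¹ * τ * a⁻¹⁻¹) * a⁻¹ = τ
      group
  have h2 : a * t * a⁻¹ ∈ ((Torelli g).lowerCentralSeries n).map (MulAut.conj a).toMonoidHom :=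
    ⟨t, ht, rfl⟩
  rwa [Subgroup.map_lowerCentralSeries, h1] at h2

end Pool.Agent.N518.HQ
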