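import Pool.Agent.N518.TG.Defs

/-!
# Mapping classes: exchange of handles, pushing a handle, linking of two handles
-/

set_option autoImplicit false

namespace Pool.Agent.N518.HQ

open Pool.Agent.N518.TG

section
variable {g : ℕ} {Q : Type} [Group Q]

/-- the homomorphism with `x_l ↦ X l`, `y_l ↦ e l` -/
def HH (X e : Fin g → Q) : Surf g →* Q := FreeGroup.lift fun p => if p.2 then e p.1 else X p.1

@[simp] theorem HH_x (X e : Fin g → Q) (i : Fin g) : HH X e (xx i) = X i := by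
  unfold HH xx
  rw [FreeGroup.lift_apply_of]
  simp

@[simp] theorem HH_y (X e : Fin g → Q) (i : Fin g) : HH X e (yy i) = e i := by
  unfold HH yy
  rw [FreeGroup.lift_apply_of]
  simp

theorem HH_ext {f : Surf g →* Q} {X e : Fin g → Q} (hx : ∀ i, f (xx i) = X i)
    (hy : ∀ i, f (yy i) = e i) : f = HH X e := by
  refine FreeGroup.ext_hom _ _ fun p => ?_
  obtain ⟨i, b⟩ := p
  cases b with
  | false => exact (hx i).trans (HH_x X e i).symm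
  | true => exact (hy i).trans (HH_y X e i).symm

theorem hom_ext {f f' : Surf g →* Q} (hx : ∀ i, f (xx i) = f' (xx i))
    (hy : ∀ i, f (yy i) = f' (yy i)) : f = f' := by
  refine FreeGroup.ext_hom _ _ fun p => ?_
  obtain ⟨i, b⟩ := p
  cases b with
  | false => exact hx i
  | true => exact hy i

theorem HH_comp {g' : ℕ} (X e : Fin g → Q) (a b : Fin g' → Surf g) :
    (HH X e).comp (HH a b) = HH (fun i => HH X e (a i)) fun i => HH X e (b i) := by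
  refine HH_ext (fun i => ?_) fun i => ?_
  · rw [MonoidHom.comp_apply, HH_x]
  · rw [MonoidHom.comp_apply, HH_y]

end

/-! ### automorphisms of the surface of genus two -/

section
variable {G : Type} [Group G]

/-- an automorphism from two inverse homomorphisms -/
def mk2 (f f' : Surf 2 →* Surf 2) (h : f'.comp f = MonoidHom.id _) (h' : f.comp f' = MonoidHom.id _) :
    MulAut (Surf 2) := f.toMulEquiv f' h h'

theorem mk2_apply (f f' : Surf 2 →* Surf 2) (h) (h') (z : Surf 2) : mk2 f f' h h' z = f z := rfl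

theorem mk2_inv_apply (f f' : Surf 2 →* Surf 2) (h) (h') (z : Surf 2) :
    (mk2 f f' h h')⁻¹ z = f' z := rfl

theorem bdry_two : bdry 2 = xx 0 * yy 0 * (xx 0)⁻¹ * (yy 0)⁻¹ *
    (xx 1 * yy 1 * (xx 1)⁻¹ * (yy 1)⁻¹) := by
  simp [bdry, List.ofFn_succ]

theorem two_ext {f f' : Surf 2 →* G} (h0 : f (xx 0) = f' (xx 0)) (h1 : f (xx 1) = f' (xx 1))
    (h2 : f (yy 0) = f' (yy 0)) (h3 : f (yy 1) = f' (yy 1)) : f = f' := by
  refine hom_ext (fun i => ?_) fun i => ?_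
  · fin_cases i
    · exact h0
    · exact h1
  · fin_cases i
    · exact h2
    · exact h3

/-- `[x_0, y_0]` -/
def c0 : Surf 2 := xx 0 * yy 0 * (xx 0)⁻¹ * (yy 0)⁻¹

/-- `[x_1, y_1]` -/
def c1 : Surf 2 := xx 1 * yy 1 * (xx 1)⁻¹ * (yy 1)⁻¹

/-- the exchange of the handles -/
def sw : MulAut (Surf 2) :=
  mk2 (HH ![c0 * xx 1 * c0⁻¹, xx 0] ![c0 * yy 1 * c0⁻¹, yy 0])
    (HH ![xx 1, c1⁻¹ * xx 0 * c1] ![yy 1, c1⁻¹ * yy 0 * c1])
    (by apply two_ext <;> simp [c0, c1] <;> group)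
    (by apply two_ext <;> simp [c0, c1] <;> group)

/-- the curve `y_0⁻¹ x_1 y_1 x_1⁻¹` -/
def uu : Surf 2 := (yy 0)⁻¹ * xx 1 * yy 1 * (xx 1)⁻¹

/-- the Dehn twist about the curve `uu` -/
def Tu : MulAut (Surf 2) :=
  mk2 (HH ![xx 0 * uu, uu⁻¹ * xx 1] ![uu⁻¹ * yy 0 * uu, yy 1])
    (HH ![xx 0 * uu⁻¹, uu * xx 1] ![uu * yy 0 * uu⁻¹, yy 1])
    (by apply two_ext <;> simp [uu] <;> group)
    (by apply two_ext <;> simp [uu] <;> group)

/-- the Dehn twist about `y_0` -/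
def T0 : MulAut (Surf 2) :=
  mk2 (HH ![xx 0 * yy 0, xx 1] ![yy 0, yy 1]) (HH ![xx 0 * (yy 0)⁻¹, xx 1] ![yy 0, yy 1])
    (by apply two_ext <;> simp) (by apply two_ext <;> simp)

/-- the Dehn twist about `y_1` -/
def T1 : MulAut (Surf 2) :=
  mk2 (HH ![xx 0, xx 1 * yy 1] ![yy 0, yy 1]) (HH ![xx 0, xx 1 * (yy 1)⁻¹] ![yy 0, yy 1])
    (by apply two_ext <;> simp) (by apply two_ext <;> simp)

/-- the rotation of both handles -/
def RR : MulAut (Surf 2) :=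
  mk2 (HH ![xx 0 * yy 0 * (xx 0)⁻¹, xx 1 * yy 1 * (xx 1)⁻¹] ![(xx 0)⁻¹, (xx 1)⁻¹])
    (HH ![(yy 0)⁻¹, (yy 1)⁻¹] ![yy 0 * xx 0 * (yy 0)⁻¹, yy 1 * xx 1 * (yy 1)⁻¹])
    (by apply two_ext <;> simp <;> group) (by apply two_ext <;> simp <;> group)

theorem sw_mem : sw ∈ Mod 2 := by
  show sw (bdry 2) = bdry 2
  rw [bdry_two]
  simp [sw, mk2_apply, c0]
  group

theorem Tu_mem : Tu ∈ Mod 2 := by
  show Tu (bdry 2) = bdry 2
  rw [bdry_two]
  simp [Tu, mk2_apply, uu]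
  group

theorem T0_mem : T0 ∈ Mod 2 := by
  show T0 (bdry 2) = bdry 2
  rw [bdry_two]
  simp [T0, mk2_apply]

theorem T1_mem : T1 ∈ Mod 2 := by
  show T1 (bdry 2) = bdry 2
  rw [bdry_two]
  simp [T1, mk2_apply]

theorem RR_mem : RR ∈ Mod 2 := by
  show RR (bdry 2) = bdry 2
  rw [bdry_two]
  simp [RR, mk2_apply]
  group

/-- pushing the second handle along `y_0` -/
def pp : MulAut (Surf 2) := Tu * T0 * T1

/-- linking the two handles -/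
def aa : MulAut (Surf 2) := RR * pp * RR⁻¹

theorem pp_mem : pp ∈ Mod 2 := mul_mem (mul_mem Tu_mem T0_mem) T1_mem

theorem aa_mem : aa ∈ Mod 2 := mul_mem (mul_mem RR_mem pp_mem) (inv_mem RR_mem)

/-! the effect on homomorphisms -/

theorem comp_sw {a b c d : G} (h0 : Commute a c) (_h1 : Commute b d) :
    (HH ![a, b] ![c, d]).comp sw.toMonoidHom = HH ![b, a] ![d, c] := by
  have e0 : HH ![a, b] ![c, d] c0 = 1 := by
    simp only [c0, map_mul, map_inv, HH_x, HH_y]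
    show a * c * a⁻¹ * c⁻¹ = 1
    rw [h0.eq]
    group
  apply two_ext
  · show HH ![a, b] ![c, d] (sw (xx 0)) = _
    simp [sw, mk2_apply, e0]
  · show HH ![a, b] ![c, d] (sw (xx 1)) = _
    simp [sw, mk2_apply]
  · show HH ![a, b] ![c, d] (sw (yy 0)) = _
    simp [sw, mk2_apply, e0]
  · show HH ![a, b] ![c, d] (sw (yy 1)) = _
    simp [sw, mk2_apply]

theorem comp_pp (a b c : G) :
    (HH ![a, b] ![c, 1]).comp pp.toMonoidHom = HH ![a, c * b] ![c, 1] := by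
  apply two_ext
  · show HH ![a, b] ![c, 1] (Tu (T0 (T1 (xx 0)))) = _
    simp [Tu, T0, T1, mk2_apply, uu]
  · show HH ![a, b] ![c, 1] (Tu (T0 (T1 (xx 1)))) = _
    simp [Tu, T0, T1, mk2_apply, uu]
  · show HH ![a, b] ![c, 1] (Tu (T0 (T1 (yy 0)))) = _
    simp [Tu, T0, T1, mk2_apply, uu]
  · show HH ![a, b] ![c, 1] (Tu (T0 (T1 (yy 1)))) = _
    simp [Tu, T0, T1, mk2_apply, uu]

theorem comp_pp_comm {H : Type} [CommGroup H] (a b c d : H) :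
    (HH ![a, b] ![c, d]).comp pp.toMonoidHom = HH ![d * a, c * b] ![c, d] := by
  have eU : HH ![a, b] ![c, d] uu = c⁻¹ * d := by
    simp only [uu, map_mul, map_inv, HH_x, HH_y]
    show c⁻¹ * b * d * b⁻¹ = c⁻¹ * d
    rw [mul_assoc c⁻¹ b d, mul_assoc, mul_inv_cancel_comm]
  apply two_ext
  · show HH ![a, b] ![c, d] (Tu (T0 (T1 (xx 0)))) = _
    simp [Tu, T0, T1, mk2_apply, eU]
    rw [mul_comm d a]
    group
    rw [zpow_neg_one, mul_assoc, mul_comm d c, ← mul_assoc, inv_mul_cancel_right]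
  · show HH ![a, b] ![c, d] (Tu (T0 (T1 (xx 1)))) = _
    simp [Tu, T0, T1, mk2_apply, eU]
    rw [mul_comm d⁻¹ c, mul_assoc c, mul_comm d⁻¹ b, ← mul_assoc, inv_mul_cancel_right]
  · show HH ![a, b] ![c, d] (Tu (T0 (T1 (yy 0)))) = _
    simp [Tu, T0, T1, mk2_apply, eU]
  · show HH ![a, b] ![c, d] (Tu (T0 (T1 (yy 1)))) = _
    simp [Tu, T0, T1, mk2_apply]

/-- the inverses -/
def TuI : Surf 2 →* Surf 2 := HH ![xx 0 * uu⁻¹, uu * xx 1] ![uu * yy 0 * uu⁻¹, yy 1]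
def T0I : Surf 2 →* Surf 2 := HH ![xx 0 * (yy 0)⁻¹, xx 1] ![yy 0, yy 1]
def T1I : Surf 2 →* Surf 2 := HH ![xx 0, xx 1 * (yy 1)⁻¹] ![yy 0, yy 1]
def RRI : Surf 2 →* Surf 2 :=
  HH ![(yy 0)⁻¹, (yy 1)⁻¹] ![yy 0 * xx 0 * (yy 0)⁻¹, yy 1 * xx 1 * (yy 1)⁻¹]

theorem aa_inv (z : Surf 2) : aa⁻¹ z = RR (T1I (T0I (TuI (RRI z)))) := by
  have : aa⁻¹ = RR * T1⁻¹ * T0⁻¹ * Tu⁻¹ * RR⁻¹ := by
    unfold aa pp
    group
  rw [this]
  rfl

theorem comp_aa1 (d : G) :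
    (HH ![1, 1] ![d, 1]).comp (aa⁻¹).toMonoidHom = HH ![1, 1] ![d, 1] := by
  apply two_ext
  · show HH ![1, 1] ![d, 1] (aa⁻¹ (xx 0)) = _
    rw [aa_inv]
    simp [TuI, T0I, T1I, RRI, RR, mk2_apply, uu]
  · show HH ![1, 1] ![d, 1] (aa⁻¹ (xx 1)) = _
    rw [aa_inv]
    simp [TuI, T0I, T1I, RRI, RR, mk2_apply, uu]
  · show HH ![1, 1] ![d, 1] (aa⁻¹ (yy 0)) = _
    rw [aa_inv]
    simp [TuI, T0I, T1I, RRI, RR, mk2_apply, uu]
  · show HH ![1, 1] ![d, 1] (aa⁻¹ (yy 1)) = _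
    rw [aa_inv]
    simp [TuI, T0I, T1I, RRI, RR, mk2_apply, uu]

theorem comp_aa2 (d : G) :
    (HH ![1, d⁻¹] ![d, 1]).comp (aa⁻¹).toMonoidHom = HH ![1, d⁻¹] ![1, 1] := by
  apply two_ext
  · show HH ![1, d⁻¹] ![d, 1] (aa⁻¹ (xx 0)) = _
    rw [aa_inv]
    simp [TuI, T0I, T1I, RRI, RR, mk2_apply, uu]
  · show HH ![1, d⁻¹] ![d, 1] (aa⁻¹ (xx 1)) = _
    rw [aa_inv]
    simp [TuI, T0I, T1I, RRI, RR, mk2_apply, uu]
  · show HH ![1, d⁻¹] ![d, 1] (aa⁻¹ (yy 0)) = _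
    rw [aa_inv]
    simp [TuI, T0I, T1I, RRI, RR, mk2_apply, uu]
  · show HH ![1, d⁻¹] ![d, 1] (aa⁻¹ (yy 1)) = _
    rw [aa_inv]
    simp [TuI, T0I, T1I, RRI, RR, mk2_apply, uu]

end

end Pool.Agent.N518.HQ
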